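import Pool.Agent.Full.LemA.End

/-!
# The exit of the strand of `z` through a closed wall

`w` joins neighbouring ends, its fixed points are the three marks `e1`, `e2`, `e3` (in this cyclic
order); `e1` is the first or the last end.  `Ex f w k e`: the strand of `z`, which arrives at the end
`k`, leaves at the mark `e`.
-/

set_option autoImplicit false

namespace Full.LemA

open Finset

/-- the walk from `s` along `w` and `f` ends at the mark `e` -/
inductive Ex (f w : ℕ → ℕ) : ℕ → ℕ → Prop
  | stop {s : ℕ} : w s = s → Ex f w s s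
  | go {s e : ℕ} : w s ≠ s → Ex f w (f (w s)) e → Ex f w s e

/-- a closed wall with three marks -/
structure Clo (n : ℕ) (w : ℕ → ℕ) (e1 e2 e3 : ℕ) : Prop where
  lt : ∀ s, s < n → w s < n
  inv : ∀ s, s < n → w (w s) = s
  adj : ∀ s, s < n → w s = s ∨ w s = s + 1 ∨ s = w s + 1
  fix : ∀ s, s < n → (w s = s ↔ s = e1 ∨ s = e2 ∨ s = e3)
  h1 : (e1 = 0 ∧ e1 < e2) ∨ (e1 + 1 = n ∧ e3 < e1)
  h23 : e2 < e3
  h3 : e3 < n
  par : (e3 - e2) % 2 = 1

/-- the wall after the removal of the arc from `a` to `b` -/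
def ctr (w : ℕ → ℕ) (a b s : ℕ) : ℕ :=
  if w s = a then (if w b = b then s else w b) else if w s = b then (if w a = a then s else w a)
    else w s

/-- the mark after the removal -/
def mv (w : ℕ → ℕ) (a b e : ℕ) : ℕ := if e = a then w b else if e = b then w a else e

/-- the wall after the removal -/
def rw' (sk usk w : ℕ → ℕ) (a b t : ℕ) : ℕ := usk (ctr w a b (sk t))

section ctr

variable {n n' a b : ℕ} {sk usk w f : ℕ → ℕ}

lemma ctr_ok (lt : ∀ s, s < n → w s < n) (inv : ∀ s, s < n → w (w s) = s) (ha : a < n) (hb : b < n)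
    (hab : a ≠ b) {s : ℕ} (hs : s < n) (sa : s ≠ a) (sb : s ≠ b) :
    ctr w a b s < n ∧ ctr w a b s ≠ a ∧ ctr w a b s ≠ b ∧ ctr w a b (ctr w a b s) = s ∧
      (ctr w a b s = s ↔ w s = s ∨ (w s = a ∧ w b = b) ∨ (w s = b ∧ w a = a)) := by
  have i1 := inv s hs
  have i2 := inv a ha
  have i3 := inv b hb
  have l1 := lt s hs
  have l2 := lt a ha
  have l3 := lt b hb
  clear lt inv
  unfold ctr
  refine ⟨?_, ?_, ?_, ?_, ?_⟩
  · split_ifs <;> assumption
  · grind
  · grind
  · grind
  · grind

/-- the exit is a fixed point -/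
lemma Ex.fix {s e : ℕ} (h : Ex f w s e) : w e = e := by
  induction h with
  | stop h => exact h
  | go _ _ ih => exact ih

lemma Ex.lt (flt : ∀ s, s < n → f s < n) (wlt : ∀ s, s < n → w s < n) {s e : ℕ}
    (h : Ex f w s e) : s < n → e < n := by
  induction h with
  | stop _ => exact id
  | go _ _ ih => exact fun hs => ih (flt _ (wlt _ hs))

/-- two marks which are joined are not reached -/
lemma Ex.ne (finv : ∀ s, s < n → f (f s) = s) (flt : ∀ s, s < n → f s < n)
    (inv : ∀ s, s < n → w (w s) = s) (wlt : ∀ s, s < n → w s < n)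
    (hf : f a = b) (hf' : f b = a) (wa : w a = a) (wb : w b = b) {s e : ℕ}
    (h : Ex f w s e) : s < n → s ≠ a → s ≠ b → e ≠ a ∧ e ≠ b := by
  induction h with
  | stop _ => exact fun _ h1 h2 => ⟨h1, h2⟩
  | @go s e h0 _ ih =>
    intro hs h1 h2
    have i1 := inv s hs
    have i2 := finv (w s) (wlt s hs)
    refine ih (flt _ (wlt s hs)) ?_ ?_
    · intro h
      rw [h, hf] at i2
      rw [← i2, wb] at i1
      exact h2 i1.symm
    · intro h
      rw [h, hf'] at i2
      rw [← i2, wa] at i1
      exact h1 i1.symm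

/-- the exit after the removal -/
theorem Ex.rem (R : Rm n n' a b sk usk) (finv : ∀ s, s < n → f (f s) = s)
    (flt : ∀ s, s < n → f s < n) (inv : ∀ s, s < n → w (w s) = s) (wlt : ∀ s, s < n → w s < n)
    (ha : a < n) (hb : b < n) (hab : a ≠ b) (hf : f a = b) (hf' : f b = a)
    {s e : ℕ} (h : Ex f w s e) : s < n →
    (s ≠ a → s ≠ b → Ex (rf sk usk f) (rw' sk usk w a b) (usk s) (usk (mv w a b e))) ∧
    (s = a → w a = a → e = a) ∧ (s = b → w b = b → e = b) ∧
    (s = a → w a ≠ a → w a ≠ b →
      Ex (rf sk usk f) (rw' sk usk w a b) (usk (f (w a))) (usk (mv w a b e))) ∧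
    (s = b → w b ≠ b → w b ≠ a →
      Ex (rf sk usk f) (rw' sk usk w a b) (usk (f (w b))) (usk (mv w a b e))) := by
  have fne : ∀ r, r < n → r ≠ a → r ≠ b → f r ≠ a ∧ f r ≠ b := by
    intro r hr h1 h2
    have := finv r hr
    refine ⟨fun h => ?_, fun h => ?_⟩
    · rw [h, hf] at this
      exact h2 this.symm
    · rw [h, hf'] at this
      exact h1 this.symm
  have ia := inv a ha
  have ib := inv b hb
  have la := wlt a ha
  have lb := wlt b hb
  have uinj : ∀ p q, p < n → p ≠ a → p ≠ b → q < n → q ≠ a → q ≠ b → usk p = usk q → p = q := by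
    intro p q h1 h2 h3 h4 h5 h6 h
    rw [← R.su p h1 h2 h3, h, R.su q h4 h5 h6]
  induction h with
  | @stop s h0 =>
    intro hs
    refine ⟨fun h1 h2 => ?_, fun h _ => h, fun h _ => h, fun h h3 => ?_, fun h h3 => ?_⟩
    · have e1 : mv w a b s = s := by
        unfold mv
        rw [if_neg h1, if_neg h2]
      rw [e1]
      refine Ex.stop ?_
      unfold rw' ctr
      rw [R.su s hs h1 h2, h0, if_neg h1, if_neg h2]
    · exact absurd (by rw [← h]; exact h0) h3
    · exact absurd (by rw [← h]; exact h0) h3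
  | @go s e h0 h' ih =>
    intro hs
    have ls := wlt s hs
    have is := inv s hs
    obtain ⟨k1, k2, k3, k4, k5⟩ := ih (flt _ ls)
    refine ⟨fun h1 h2 => ?_, fun h h3 => ?_, fun h h3 => ?_, fun h h3 h4 => ?_, fun h h3 h4 => ?_⟩
    · -- an ordinary end
      by_cases ra : w s = a
      · have fs : f (w s) = b := by rw [ra, hf]
        by_cases hwb : w b = b
        · have e1 := k3 fs hwb
          have ec : ctr w a b s = s := by unfold ctr; rw [if_pos ra, if_pos hwb]
          have em : mv w a b e = s := by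
            unfold mv
            rw [e1, if_neg hab.symm, if_pos rfl, ← ra, is]
          rw [em]
          refine Ex.stop ?_
          unfold rw'
          rw [R.su s hs h1 h2, ec]
        · have hwba : w b ≠ a := by
            intro hh
            rw [hh] at ib
            rw [ra, ib] at is
            exact h2 is.symm
          have e1 := k5 fs hwb hwba
          have ec : ctr w a b s = w b := by unfold ctr; rw [if_pos ra, if_neg hwb]
          have hwbs : w b ≠ s := by
            intro hh
            rw [hh, ra] at ib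
            exact hab ib
          refine Ex.go ?_ ?_
          · unfold rw'
            rw [R.su s hs h1 h2, ec]
            exact fun hh => hwbs (uinj _ _ lb hwba hwb hs h1 h2 hh)
          · have e2 : rf sk usk f (rw' sk usk w a b (usk s)) = usk (f (w b)) := by
              unfold rf rw'
              rw [R.su s hs h1 h2, ec, R.su _ lb hwba hwb]
            rw [e2]
            exact e1
      · by_cases rb : w s = b
        · have fs : f (w s) = a := by rw [rb, hf']
          by_cases hwa : w a = a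
          · have e1 := k2 fs hwa
            have ec : ctr w a b s = s := by unfold ctr; rw [if_neg ra, if_pos rb, if_pos hwa]
            have em : mv w a b e = s := by
              unfold mv
              rw [e1, if_pos rfl, ← rb, is]
            rw [em]
            refine Ex.stop ?_
            unfold rw'
            rw [R.su s hs h1 h2, ec]
          · have hwab : w a ≠ b := by
              intro hh
              rw [hh] at ia
              rw [rb, ia] at is
              exact h1 is.symm
            have e1 := k4 fs hwa hwab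
            have ec : ctr w a b s = w a := by unfold ctr; rw [if_neg ra, if_pos rb, if_neg hwa]
            have hwas : w a ≠ s := by
              intro hh
              rw [hh, rb] at ia
              exact hab ia.symm
            refine Ex.go ?_ ?_
            · unfold rw'
              rw [R.su s hs h1 h2, ec]
              exact fun hh => hwas (uinj _ _ la hwa hwab hs h1 h2 hh)
            · have e2 : rf sk usk f (rw' sk usk w a b (usk s)) = usk (f (w a)) := by
                unfold rf rw'
                rw [R.su s hs h1 h2, ec, R.su _ la hwa hwab]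
              rw [e2]
              exact e1
        · have ec : ctr w a b s = w s := by unfold ctr; rw [if_neg ra, if_neg rb]
          obtain ⟨f1, f2⟩ := fne _ ls ra rb
          refine Ex.go ?_ ?_
          · unfold rw'
            rw [R.su s hs h1 h2, ec]
            exact fun hh => h0 (uinj _ _ ls ra rb hs h1 h2 hh)
          · have e2 : rf sk usk f (rw' sk usk w a b (usk s)) = usk (f (w s)) := by
              unfold rf rw'
              rw [R.su s hs h1 h2, ec, R.su _ ls ra rb]
            rw [e2]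
            exact k1 f1 f2
    · exact absurd (by rw [h]; exact h3) h0
    · exact absurd (by rw [h]; exact h3) h0
    · rw [h] at k1
      obtain ⟨f1, f2⟩ := fne _ la h3 h4
      exact k1 f1 f2
    · rw [h] at k1
      obtain ⟨f1, f2⟩ := fne _ lb h4 h3
      exact k1 f1 f2

end ctr

/-- the mark after the removal of the arc `(i, i + 1)` -/
def El (i e : ℕ) : ℕ := if e ≤ i then e else if e = i + 1 then i - 1 else e - 2

lemma El_iff {i e s : ℕ} (h : i + 1 = e → 1 ≤ i) :
    s = El i e ↔ skl i s = e ∨ (i = e ∧ s = i) ∨ (i + 1 = e ∧ s + 1 = i) := by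
  unfold El skl
  split_ifs <;> omega

lemma El_le (i e : ℕ) : El i e ≤ e := by
  unfold El
  split_ifs <;> omega

lemma El_mod {i e : ℕ} (h : i + 1 = e → 1 ≤ i) : El i e % 2 = e % 2 := by
  unfold El
  split_ifs <;> omega

lemma El_n {n i e : ℕ} (hi : i + 1 < n) (he : e < n) (h : i + 1 = e → 1 ≤ i)
    (h' : i = e → i + 2 < n) : El i e < n - 2 := by
  unfold El
  split_ifs <;> omega

lemma prop_help (a1 a2 a3 b1 b2 b3 c1 c2 c3 p q : Prop) :
    ((a1 ∨ a2 ∨ a3) ∨ ((b1 ∨ b2 ∨ b3) ∧ p) ∨ ((c1 ∨ c2 ∨ c3) ∧ q)) ↔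
      ((a1 ∨ (c1 ∧ q) ∨ (b1 ∧ p)) ∨ (a2 ∨ (c2 ∧ q) ∨ (b2 ∧ p)) ∨ (a3 ∨ (c3 ∧ q) ∨ (b3 ∧ p))) := by
  tauto

lemma El_top {n i e : ℕ} (hi : i + 1 < n) (he : e + 1 = n) (h : i + 1 = e → 1 ≤ i) :
    El i e + 1 = n - 2 := by
  unfold El
  split_ifs <;> omega

lemma El_lt {i e e' : ℕ} (h : e < e') (h1 : i = e → e' ≠ i + 1 ∧ e' ≠ i + 2)
    (h2 : i + 1 = e' → 1 ≤ i ∧ e ≠ i - 1) (h3 : i + 1 = e → 1 ≤ i) : El i e < El i e' := by
  unfold El
  split_ifs <;> omega

theorem Clo.lin {n i : ℕ} {w : ℕ → ℕ} {e1 e2 e3 : ℕ} (C : Clo n w e1 e2 e3) (hi : i + 1 < n)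
    (hnb : ¬(w i = i ∧ w (i + 1) = i + 1)) :
    Clo (n - 2) (rw' (skl i) (uskl i) w i (i + 1)) (El i e1) (El i e2) (El i e3) ∧
    ∀ e, (e = e1 ∨ e = e2 ∨ e = e3) → uskl i (mv w i (i + 1) e) = El i e ∧
      (El i e = El i e1 ↔ e = e1) ∧ (El i e = El i e2 ↔ e = e2) ∧ (El i e = El i e3 ↔ e = e3) := by
  have R := rm_lin hi
  obtain ⟨lt, inv, adj, fix, h1, h23, h3, par⟩ := C
  have ok := fun s (hs : s < n) => ctr_ok lt inv (a := i) (b := i + 1) (by omega) hi (by omega)
    (s := s) hs
  -- the neighbourhood of the arc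
  have a1 := adj i (by omega)
  have a2 := adj (i + 1) hi
  have l1 := lt i (by omega)
  have l2 := lt (i + 1) hi
  have v1 := inv i (by omega)
  have v2 := inv (i + 1) hi
  have x1 := fix i (by omega)
  have x2 := fix (i + 1) hi
  have hl : w i = i + 1 ∨ w i = i ∨ (1 ≤ i ∧ w i = i - 1) := by omega
  have hr : w (i + 1) = i ∨ w (i + 1) = i + 1 ∨ (i + 2 < n ∧ w (i + 1) = i + 2) := by omega
  -- the left neighbour is not a mark if it is joined to `i`
  have nl : 1 ≤ i → w i = i - 1 → ¬(i - 1 = e1 ∨ i - 1 = e2 ∨ i - 1 = e3) := by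
    intro h4 h5 h6
    have := (fix (i - 1) (by omega)).2 h6
    rw [h5] at v1
    omega
  have nr : i + 2 < n → w (i + 1) = i + 2 → ¬(i + 2 = e1 ∨ i + 2 = e2 ∨ i + 2 = e3) := by
    intro h4 h5 h6
    have := (fix (i + 2) h4).2 h6
    rw [h5] at v2
    omega
  -- the marks at the arc
  have m1 : (i = e1 ∨ i = e2 ∨ i = e3) → i + 2 < n ∧ w (i + 1) = i + 2 := by
    intro h
    have := x1.2 h
    rcases hr with h' | h' | h'
    · rw [h'] at v2; omega
    · exact absurd ⟨this, h'⟩ hnb
    · exact h'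
  have m2 : (i + 1 = e1 ∨ i + 1 = e2 ∨ i + 1 = e3) → 1 ≤ i ∧ w i = i - 1 := by
    intro h
    have := x2.2 h
    rcases hl with h' | h' | h'
    · rw [h'] at v1; omega
    · exact absurd ⟨h', this⟩ hnb
    · exact h'
  have m3 : (i = e1 ∨ i = e2 ∨ i = e3) → ¬(i + 2 = e1 ∨ i + 2 = e2 ∨ i + 2 = e3) :=
    fun h => nr (m1 h).1 (m1 h).2
  have m4 : (i + 1 = e1 ∨ i + 1 = e2 ∨ i + 1 = e3) → ¬(i - 1 = e1 ∨ i - 1 = e2 ∨ i - 1 = e3) :=
    fun h => nl (m2 h).1 (m2 h).2
  have mono : ∀ e e', (e = e1 ∨ e = e2 ∨ e = e3) → (e' = e1 ∨ e' = e2 ∨ e' = e3) → e < e' →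
      El i e < El i e' := by
    intro e e' he he' hlt
    refine El_lt hlt (fun h => ⟨fun h' => ?_, fun h' => ?_⟩) (fun h => ⟨?_, fun h' => ?_⟩)
      (fun h => ?_)
    · exact hnb ⟨x1.2 (by rw [h]; exact he), x2.2 (by rw [← h']; exact he')⟩
    · exact m3 (by rw [h]; exact he) (by rw [← h']; exact he')
    · exact (m2 (by rw [h]; exact he')).1
    · exact m4 (by rw [h]; exact he') (by rw [← h']; exact he)
    · exact (m2 (by rw [h]; exact he)).1
  refine ⟨⟨fun s hs => ?_, fun s hs => ?_, fun s hs => ?_, fun s hs => ?_, ?_, ?_, ?_, ?_⟩, ?_⟩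
  · obtain ⟨k1, k2, k3, k4, k5⟩ := ok (skl i s) (R.lt s hs) (R.ne1 s hs) (R.ne2 s hs)
    exact R.ult _ k1 k2 k3
  · obtain ⟨k1, k2, k3, k4, k5⟩ := ok (skl i s) (R.lt s hs) (R.ne1 s hs) (R.ne2 s hs)
    show uskl i (ctr w i (i + 1) (skl i (uskl i (ctr w i (i + 1) (skl i s))))) = s
    rw [R.su _ k1 k2 k3, k4, R.us s hs]
  · have k0 := adj (skl i s) (R.lt s hs)
    have k7 := inv (skl i s) (R.lt s hs)
    have k8 := R.ne1 s hs
    have k9 := R.ne2 s hs
    show uskl i (ctr w i (i + 1) (skl i s)) = s ∨ _ = s + 1 ∨ s = _ + 1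
    unfold rw' ctr
    by_cases c1 : w (skl i s) = i
    · rw [if_pos c1]
      rw [c1] at k7
      by_cases c2 : w (i + 1) = i + 1
      · rw [if_pos c2]
        left
        exact R.us s hs
      · rw [if_neg c2]
        have c3 : w (i + 1) = i + 2 := by
          rcases hr with h | h | h
          · rw [h] at v2; omega
          · exact absurd h c2
          · exact h.2
        rw [c3]
        unfold skl uskl at *
        split_ifs at * <;> omega
    · rw [if_neg c1]
      by_cases c2 : w (skl i s) = i + 1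
      · rw [if_pos c2]
        rw [c2] at k7
        by_cases c3 : w i = i
        · rw [if_pos c3]
          left
          exact R.us s hs
        · rw [if_neg c3]
          have c4 : 1 ≤ i ∧ w i = i - 1 := by
            rcases hl with h | h | h
            · rw [h] at v1; omega
            · exact absurd h c3
            · exact h
          rw [c4.2]
          unfold skl uskl at *
          split_ifs at * <;> omega
      · rw [if_neg c2]
        unfold skl uskl at *
        split_ifs at * <;> omega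
  · obtain ⟨k1, k2, k3, k4, k5⟩ := ok (skl i s) (R.lt s hs) (R.ne1 s hs) (R.ne2 s hs)
    have k6 : rw' (skl i) (uskl i) w i (i + 1) s = s ↔ ctr w i (i + 1) (skl i s) = skl i s := by
      unfold rw'
      constructor
      · intro h
        have := R.su _ k1 k2 k3
        rw [h] at this
        exact this.symm
      · intro h
        rw [h, R.us s hs]
    rw [k6, k5]
    have k7 := fix (skl i s) (R.lt s hs)
    rw [k7]
    have k8 := R.ne1 s hs
    have k9 := R.ne2 s hs
    have k10 := inv (skl i s) (R.lt s hs)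
    have k11 : w (skl i s) = i ↔ w i = skl i s := by
      constructor
      · intro h
        rw [h] at k10
        exact k10
      · intro h
        rw [h] at v1
        exact v1
    have k12 : w (skl i s) = i + 1 ↔ w (i + 1) = skl i s := by
      constructor
      · intro h
        rw [h] at k10
        exact k10
      · intro h
        rw [h] at v2
        exact v2
    rw [k11, k12, El_iff (fun h => (m2 (Or.inl h)).1), El_iff (fun h => (m2 (Or.inr (Or.inl h))).1),
      El_iff (fun h => (m2 (Or.inr (Or.inr h))).1)]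
    have F1 : (w i = skl i s ∧ w (i + 1) = i + 1) ↔
        ((i + 1 = e1 ∨ i + 1 = e2 ∨ i + 1 = e3) ∧ s + 1 = i) := by
      constructor
      · rintro ⟨g1, g2⟩
        have g3 := x2.1 g2
        have g4 := m2 g3
        refine ⟨g3, ?_⟩
        rw [g4.2] at g1
        unfold skl at g1
        split_ifs at g1 <;> omega
      · rintro ⟨g1, g2⟩
        have g4 := m2 g1
        refine ⟨?_, x2.2 g1⟩
        rw [g4.2]
        unfold skl
        split_ifs <;> omega
    have F2 : (w (i + 1) = skl i s ∧ w i = i) ↔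
        ((i = e1 ∨ i = e2 ∨ i = e3) ∧ s = i) := by
      constructor
      · rintro ⟨g1, g2⟩
        have g3 := x1.1 g2
        have g4 := m1 g3
        refine ⟨g3, ?_⟩
        rw [g4.2] at g1
        unfold skl at g1
        split_ifs at g1 <;> omega
      · rintro ⟨g1, g2⟩
        have g4 := m1 g1
        refine ⟨?_, x1.2 g1⟩
        rw [g4.2]
        unfold skl
        split_ifs <;> omega
    rw [F1, F2]
    exact prop_help _ _ _ _ _ _ _ _ _ _ _
  · rcases h1 with ⟨g1, g2⟩ | ⟨g1, g2⟩
    · left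
      refine ⟨?_, mono e1 e2 (Or.inl rfl) (Or.inr (Or.inl rfl)) g2⟩
      rw [g1]
      exact if_pos (Nat.zero_le i)
    · right
      exact ⟨El_top hi g1 fun h => (m2 (Or.inl h)).1,
        mono e3 e1 (Or.inr (Or.inr rfl)) (Or.inl rfl) g2⟩
  · exact mono e2 e3 (Or.inr (Or.inl rfl)) (Or.inr (Or.inr rfl)) h23
  · exact El_n hi h3 (fun h => (m2 (Or.inr (Or.inr h))).1) fun h => (m1 (Or.inr (Or.inr h))).1
  · have g1 := mono e2 e3 (Or.inr (Or.inl rfl)) (Or.inr (Or.inr rfl)) h23
    have g2 := El_mod (i := i) (e := e2) (fun h => (m2 (Or.inr (Or.inl h))).1)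
    have g3 := El_mod (i := i) (e := e3) (fun h => (m2 (Or.inr (Or.inr h))).1)
    clear ok adj fix inv lt m1 m2 m3 m4 nl nr hl hr a1 a2 mono
    omega
  · intro e he
    have inj : ∀ e', (e' = e1 ∨ e' = e2 ∨ e' = e3) → (El i e = El i e' ↔ e = e') := by
      intro e' he'
      constructor
      · intro h
        rcases Nat.lt_trichotomy e e' with g | g | g
        · have := mono e e' he he' g
          omega
        · exact g
        · have := mono e' e he' he g
          omega
      · intro h
        rw [h]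
    refine ⟨?_, inj e1 (Or.inl rfl), inj e2 (Or.inr (Or.inl rfl)), inj e3 (Or.inr (Or.inr rfl))⟩
    unfold mv El
    by_cases c1 : e = i
    · have := (m1 (by rw [← c1]; exact he)).2
      rw [if_pos c1, this, if_pos (by omega)]
      unfold uskl
      rw [if_neg (by omega)]
      omega
    · rw [if_neg c1]
      by_cases c2 : e = i + 1
      · have := m2 (by rw [← c2]; exact he)
        rw [if_pos c2, this.2, if_neg (by omega), if_pos c2]
        unfold uskl
        rw [if_pos (by omega)]
      · rw [if_neg c2, if_neg c2]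
        unfold uskl
        split_ifs <;> omega

/-- the mark after the removal of the arc `(n - 1, 0)` -/
def Ec (n e : ℕ) : ℕ := if e = 0 then n - 3 else if e = n - 1 then 0 else e - 1

theorem Clo.cyc {n : ℕ} {w : ℕ → ℕ} {e1 e2 e3 : ℕ} (C : Clo n w e1 e2 e3) (hn : 3 ≤ n)
    (hnb : ¬(w 0 = 0 ∧ w (n - 1) = n - 1)) :
    Clo (n - 2) (rw' (fun t => t + 1) (fun s => s - 1) w 0 (n - 1)) (Ec n e1) (Ec n e2) (Ec n e3) ∧
    ∀ e, (e = e1 ∨ e = e2 ∨ e = e3) → mv w 0 (n - 1) e - 1 = Ec n e ∧
      (Ec n e = Ec n e1 ↔ e = e1) ∧ (Ec n e = Ec n e2 ↔ e = e2) ∧ (Ec n e = Ec n e3 ↔ e = e3) := by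
  have R := rm_cyc hn
  obtain ⟨lt, inv, adj, fix, h1, h23, h3, par⟩ := C
  have ok := fun s (hs : s < n) => ctr_ok lt inv (a := 0) (b := n - 1) (by omega) (by omega)
    (by omega) (s := s) hs
  have a1 := adj 0 (by omega)
  have a2 := adj (n - 1) (by omega)
  have l1 := lt 0 (by omega)
  have l2 := lt (n - 1) (by omega)
  have v1 := inv 0 (by omega)
  have v2 := inv (n - 1) (by omega)
  have x1 := fix 0 (by omega)
  have x2 := fix (n - 1) (by omega)
  have b1 := fix 1 (by omega)
  have b2 := fix (n - 2) (by omega)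
  -- two cases
  have cs : (e1 = 0 ∧ w 0 = 0 ∧ w (n - 1) = n - 2 ∧ e3 < n - 2 ∧ e1 < e2) ∨
      (e1 = n - 1 ∧ w (n - 1) = n - 1 ∧ w 0 = 1 ∧ 1 < e2 ∧ e3 < n - 1) := by
    rcases h1 with ⟨g1, g2⟩ | ⟨g1, g2⟩
    · left
      have g3 := x1.2 (Or.inl g1.symm)
      have g4 : w (n - 1) ≠ n - 1 := fun h => hnb ⟨g3, h⟩
      have g5 : w (n - 1) = n - 2 := by omega
      rw [g5] at v2
      have g6 : n - 2 ≠ e3 := fun h => by
        have := b2.2 (Or.inr (Or.inr h))
        omega
      have g7 : n - 1 ≠ e3 := fun h => g4 (x2.2 (Or.inr (Or.inr h)))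
      exact ⟨g1, g3, g5, by omega, g2⟩
    · right
      have g3 := x2.2 (Or.inl (by omega))
      have g4 : w 0 ≠ 0 := fun h => hnb ⟨h, g3⟩
      have g5 : w 0 = 1 := by omega
      rw [g5] at v1
      have g6 : 1 ≠ e2 := fun h => by
        have := b1.2 (Or.inr (Or.inl h))
        omega
      have g7 : 0 ≠ e2 := fun h => g4 (x1.2 (Or.inr (Or.inl h)))
      exact ⟨by omega, g3, g5, by omega, by omega⟩
  have main : ∀ t, t < n - 2 → (ctr w 0 (n - 1) (t + 1) - 1 = t ∨
      (w (t + 1) ≠ 0 ∧ w (t + 1) ≠ n - 1 ∧ ctr w 0 (n - 1) (t + 1) = w (t + 1))) := by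
    intro t ht
    have k7 := inv (t + 1) (by omega)
    unfold ctr
    by_cases c1 : w (t + 1) = 0
    · rw [if_pos c1]
      rw [c1] at k7
      have c2 : w (n - 1) = n - 1 := by omega
      rw [if_pos c2]
      left
      omega
    · rw [if_neg c1]
      by_cases c2 : w (t + 1) = n - 1
      · rw [if_pos c2]
        rw [c2] at k7
        have c3 : w 0 = 0 := by omega
        rw [if_pos c3]
        left
        omega
      · rw [if_neg c2]
        exact Or.inr ⟨c1, c2, rfl⟩
  refine ⟨⟨fun s hs => ?_, fun s hs => ?_, fun s hs => ?_, fun s hs => ?_, ?_, ?_, ?_, ?_⟩, ?_⟩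
  · obtain ⟨k1, k2, k3, k4, k5⟩ := ok (s + 1) (R.lt s hs) (R.ne1 s hs) (R.ne2 s hs)
    exact R.ult _ k1 k2 k3
  · obtain ⟨k1, k2, k3, k4, k5⟩ := ok (s + 1) (R.lt s hs) (R.ne1 s hs) (R.ne2 s hs)
    show ctr w 0 (n - 1) ((ctr w 0 (n - 1) (s + 1) - 1) + 1) - 1 = s
    have k6 : ctr w 0 (n - 1) (s + 1) - 1 + 1 = ctr w 0 (n - 1) (s + 1) := R.su _ k1 k2 k3
    rw [k6, k4]
    rfl
  · show ctr w 0 (n - 1) (s + 1) - 1 = s ∨ ctr w 0 (n - 1) (s + 1) - 1 = s + 1 ∨
      s = ctr w 0 (n - 1) (s + 1) - 1 + 1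
    rcases main s hs with h | ⟨g1, g2, h⟩
    · exact Or.inl h
    · rw [h]
      have := adj (s + 1) (by omega)
      omega
  · obtain ⟨k1, k2, k3, k4, k5⟩ := ok (s + 1) (R.lt s hs) (R.ne1 s hs) (R.ne2 s hs)
    have k6 : rw' (fun t => t + 1) (fun s => s - 1) w 0 (n - 1) s = s ↔
        ctr w 0 (n - 1) (s + 1) = s + 1 := by
      show ctr w 0 (n - 1) (s + 1) - 1 = s ↔ _
      omega
    rw [k6, k5]
    have k7 := fix (s + 1) (by omega)
    have k10 := inv (s + 1) (by omega)
    rw [k7]
    have k11 : w (s + 1) = 0 ↔ w 0 = s + 1 := by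
      constructor
      · intro h
        rw [h] at k10
        exact k10
      · intro h
        rw [h] at v1
        exact v1
    have k12 : w (s + 1) = n - 1 ↔ w (n - 1) = s + 1 := by
      constructor
      · intro h
        rw [h] at k10
        exact k10
      · intro h
        rw [h] at v2
        exact v2
    rw [k11, k12]
    clear k11 k12 k10 k7 k6 k5 k4 main ok R lt inv adj fix a1 a2 v1 v2 x1 x2 b1 b2 h1 par
    unfold Ec
    rcases cs with ⟨c1, c2, c3, c4, c5⟩ | ⟨c1, c2, c3, c4, c5⟩
    · rw [c1, c2, c3, if_pos rfl, if_neg (by omega), if_neg (by omega), if_neg (by omega),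
        if_neg (by omega)]
      omega
    · rw [c1, c2, c3, if_neg (by omega), if_pos rfl, if_neg (by omega), if_neg (by omega),
        if_neg (by omega), if_neg (by omega)]
      omega
  · clear main ok R lt inv adj fix a1 a2 v1 v2 x1 x2 b1 b2 h1 par
    unfold Ec
    split_ifs <;> omega
  · clear main ok R lt inv adj fix a1 a2 v1 v2 x1 x2 b1 b2 h1 par
    unfold Ec
    split_ifs <;> omega
  · clear main ok R lt inv adj fix a1 a2 v1 v2 x1 x2 b1 b2 h1 par
    unfold Ec
    split_ifs <;> omega
  · clear main ok R lt inv adj fix a1 a2 v1 v2 x1 x2 b1 b2 h1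
    unfold Ec
    split_ifs <;> omega
  · intro e he
    clear main ok R lt inv adj fix a1 a2 v1 v2 x1 x2 b1 b2 h1 par
    refine ⟨?_, ?_, ?_, ?_⟩
    · unfold mv Ec
      split_ifs <;> omega
    · unfold Ec
      split_ifs <;> omega
    · unfold Ec
      split_ifs <;> omega
    · unfold Ec
      split_ifs <;> omega

end Full.LemA
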