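import Pool.Agent.Full.Net.Walk
import Pool.Agent.Full.LemA.Exit

/-!
# The exit of the strand of `z` in a closed wall

`(T, g)` is a region, `w` an extension of the gluing (a closed wall) with the end `z`.  The boundary half
edges other than `z` are listed as `el 0, …, el (n - 1)`, `ps` is the position.  `pf` is the pattern of
the strands of `(T, g)`, `pv` the pairing of the positions by the wall.  The strand of `z` in `(T, w)` is the
walk `Ex` of the pattern.
-/

set_option autoImplicit false

namespace Full.LemA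
open Full Function Relation Finset

variable {τ : Type*} [DecidableEq τ] {T : Finset τ} {g w : Half τ → Half τ} {ω : Finset τ}
  {z : Half τ} {n : ℕ} {el : ℕ → Half τ} {ps : Half τ → ℕ}

/-- a list of the boundary half edges other than `z` -/
structure Ls (T : Finset τ) (g : Half τ → Half τ) (z : Half τ) (n : ℕ) (el : ℕ → Half τ)
    (ps : Half τ → ℕ) : Prop where
  get : ∀ s, s < n → Bd T g (el s) ∧ el s ≠ z ∧ ps (el s) = s
  pos : ∀ x, Bd T g x → x ≠ z → ps x < n ∧ el (ps x) = x

/-- the pattern of the strands -/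
noncomputable def pf (ω : Finset τ) (g : Half τ → Half τ) (z : Half τ) (el : ℕ → Half τ)
    (ps : Half τ → ℕ) (s : ℕ) : ℕ :=
  if s = ps (other (mate ω) g z) then s else ps (other (mate ω) g (el s))

/-- the pairing of the positions by the wall -/
def pv (w : Half τ → Half τ) (el : ℕ → Half τ) (ps : Half τ → ℕ) (s : ℕ) : ℕ := ps (w (el s))

lemma Ls.inj (L : Ls T g z n el ps) {x y : Half τ} (hx : Bd T g x) (hx' : x ≠ z) (hy : Bd T g y)
    (hy' : y ≠ z) (h : ps x = ps y) : x = y := by
  rw [← (L.pos x hx hx').2, h, (L.pos y hy hy').2]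

open Classical in
/-- a list of the boundary half edges from their positions -/
theorem exists_ls (hlt : ∀ u, Bd T g u → u ≠ z → ps u < n)
    (hinj : ∀ u v, Bd T g u → u ≠ z → Bd T g v → v ≠ z → ps u = ps v → u = v)
    (hsurj : ∀ s, s < n → ∃ u, Bd T g u ∧ u ≠ z ∧ ps u = s) : ∃ el, Ls T g z n el ps := by
  refine ⟨fun s => if h : s < n then (hsurj s h).choose else z, ⟨fun s hs => ?_, fun x hx hx' => ?_⟩⟩
  · rw [dif_pos hs]
    exact (hsurj s hs).choose_spec
  · have h1 := hlt x hx hx'
    refine ⟨h1, ?_⟩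
    rw [dif_pos h1]
    have h2 := (hsurj (ps x) h1).choose_spec
    exact hinj _ _ h2.1 h2.2.1 hx hx' h2.2.2

open Classical in
/-- jump to the other end of a strand -/
noncomputable def jm (ω : Finset τ) (g : Half τ → Half τ) (x : Half τ) : Half τ :=
  if g x = x then other (mate ω) g x else g x

lemma jm_bd {x : Half τ} (hx : g x = x) : jm ω g x = other (mate ω) g x := if_pos hx

lemma jm_fix (hG : Glu T g) {x : Half τ} (hx : g x = x) : g (jm ω g x) = jm ω g x := by
  rw [jm_bd hx]
  exact (hG.two ω).other_fix hx (hG.periodic ω x)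

lemma jm_mem (hG : Glu T g) {x : Half τ} (hx : x.1 ∈ T) : (jm ω g x).1 ∈ T := by
  unfold jm
  split_ifs
  · exact hG.conn_mem (Conn.iter _ _) hx
  · exact hG.mem _ hx

lemma w_fix (hG : Glu T g) (hw : Ext T g w) {x : Half τ} (hx : g x = x) : g (w x) = w x := by
  by_contra hne
  have h1 := hw.ext _ hne
  rw [hw.inv] at h1
  have h2 : g x = w x := by
    have h3 := congrArg g h1
    rw [hG.inv] at h3
    exact h3
  rw [hx] at h2
  rw [← h2] at hne
  exact hne hx

lemma two_jm (hG : Glu T g) (hw : Ext T g w) : Two (jm ω g) w := by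
  refine ⟨fun x => ?_, fun x => ?_, hw.inv⟩
  · by_cases hx : g x = x
    · have h1 := jm_fix (ω := ω) hG hx
      rw [jm_bd h1, jm_bd hx]
      exact (hG.two ω).other_other hx (hG.periodic ω x)
    · have h1 : g (g x) ≠ g x := by
        rw [hG.inv]
        exact Ne.symm hx
      unfold jm
      rw [if_neg hx, if_neg h1, hG.inv]
  · unfold jm
    split_ifs with hx
    · exact (hG.two ω).other_ne hx (hG.periodic ω x)
    · exact hx

lemma per_jm (hG : Glu T g) (hw : Ext T g w) {x : Half τ} (hx : x.1 ∈ T) :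
    x ∈ periodicPts (w ∘ jm ω g) :=
  periodic_of_finite (two_jm hG hw).inj (finite_half T)
    (fun y hy => hw.mem _ (jm_mem (ω := ω) hG hy)) hx

/-- from the composed strands to the strands -/
lemma conn_jm (hG : Glu T g) (hw : Ext T g w) {x y : Half τ} (hx : g x = x)
    (h : Conn (jm ω g) w x y) : g y = y ∧ Conn (mate ω) w x y := by
  have key : g y = y ∧ Jump (mate ω) g w x y := by
    induction h with
    | refl => exact ⟨hx, ReflTransGen.refl⟩
    | @tail b c _ h2 ih =>
      obtain ⟨h3, h4⟩ := ih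
      rcases h2 with rfl | rfl
      · refine ⟨jm_fix hG h3, h4.tail ⟨h3, Or.inl ?_⟩⟩
        exact jm_bd h3
      · exact ⟨w_fix hG hw h3, h4.tail ⟨h3, Or.inr rfl⟩⟩
  exact ⟨key.1, (hw.conn_iff hG hx key.1).2 key.2⟩

theorem other_jm (hG : Glu T g) (hw : Ext T g w) (hz : Bd T g z) (hwz : w z = z) :
    other (mate ω) w z = other (jm ω g) w z := by
  have h := two_jm (ω := ω) hG hw
  have hp := per_jm (ω := ω) hG hw hz.1
  have h1 := h.other_fix hwz hp
  rw [(hw.toGlu.two ω).other_eq_iff hwz (hw.toGlu.periodic ω z) h1]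
  exact ⟨(conn_jm hG hw hz.2 (Two.conn_other z)).2, h.other_ne hwz hp⟩

/-- **the exit** -/
theorem ex_other (L : Ls T g z n el ps) (hG : Glu T g) (hz : Bd T g z) (hw : Ext T g w)
    (hwz : w z = z) : Ex (pf ω g z el ps) (pv w el ps) (ps (other (mate ω) g z))
      (ps (other (mate ω) w z)) := by
  have h := two_jm (ω := ω) hG hw
  have hp := per_jm (ω := ω) hG hw hz.1
  rw [other_jm hG hw hz hwz]
  obtain ⟨h0, hlast⟩ := h.open_last hwz hp
  have hbd : ∀ j, Bd T g (jm ω g ((w ∘ jm ω g)^[j] z)) := by
    intro j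
    have h1 := conn_jm (ω := ω) hG hw hz.2
      ((Conn.iter (m := jm ω g) (g := w) j z).trans (Conn.m_step _))
    exact ⟨hw.toGlu.conn_mem h1.2 hz.1, h1.1⟩
  have hne : ∀ j, j < hl (jm ω g) w z → jm ω g ((w ∘ jm ω g)^[j] z) ≠ z := by
    intro j hj h1
    by_cases h2 : j + 1 < hl (jm ω g) w z
    · have h3 := h.open_ne hwz hp h2
      rw [h1] at h3
      exact h3 hwz
    · have h3 : j = hl (jm ω g) w z - 1 := by omega
      rw [h3, hlast] at h1
      exact h.other_ne hwz hp h1
  have key : ∀ i, i < hl (jm ω g) w z →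
      Ex (pf ω g z el ps) (pv w el ps) (ps (jm ω g ((w ∘ jm ω g)^[hl (jm ω g) w z - 1 - i] z)))
        (ps (other (jm ω g) w z)) := by
    intro i
    induction i with
    | zero =>
      intro _
      rw [Nat.sub_zero, hlast]
      have h1 := hbd (hl (jm ω g) w z - 1)
      have h2 := hne (hl (jm ω g) w z - 1) (by omega)
      rw [hlast] at h1 h2
      refine Ex.stop ?_
      unfold pv
      rw [(L.pos _ h1 h2).2, h.other_fix hwz hp]
    | succ i ih =>
      intro hi
      have ih' := ih (by omega)
      obtain ⟨j, hj⟩ : ∃ j, hl (jm ω g) w z - 1 - (i + 1) = j := ⟨_, rfl⟩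
      have hj1 : hl (jm ω g) w z - 1 - i = j + 1 := by omega
      rw [hj]
      rw [hj1] at ih'
      have hu := hbd j
      have hu' := hne j (by omega)
      have hm := h.open_ne hwz hp (k := j) (by omega)
      have hy := hbd (j + 1)
      have hy' := hne (j + 1) (by omega)
      rw [iterate_succ_apply', comp_apply] at hy hy' ih'
      obtain ⟨u, hue⟩ : ∃ u, jm ω g ((w ∘ jm ω g)^[j] z) = u := ⟨_, rfl⟩
      rw [hue] at hu hu' hm hy hy' ih' ⊢
      have hwu : Bd T g (w u) := ⟨hw.mem _ hu.1, w_fix hG hw hu.2⟩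
      have hwu' : w u ≠ z := by
        intro h1
        apply hu'
        rw [← hw.inv u, h1, hwz]
      have e1 : el (ps u) = u := (L.pos u hu hu').2
      have e2 : pv w el ps (ps u) = ps (w u) := by
        unfold pv
        rw [e1]
      refine Ex.go ?_ ?_
      · rw [e2]
        intro h1
        exact hm (L.inj hwu hwu' hu hu' h1)
      · rw [e2]
        have e3 : pf ω g z el ps (ps (w u)) = ps (jm ω g (w u)) := by
          unfold pf
          rw [if_neg, (L.pos _ hwu hwu').2, jm_bd hwu.2]
          intro h1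
          have h2 := L.inj hwu hwu' (hG.other_bd hz) (hG.other_ne hz) h1
          apply hy'
          rw [jm_bd hwu.2, h2, hG.other_other hz]
        rw [e3]
        exact ih'
  have h1 := key (hl (jm ω g) w z - 1) (by omega)
  rw [Nat.sub_self] at h1
  have h2 : jm ω g ((w ∘ jm ω g)^[0] z) = other (mate ω) g z := jm_bd hz.2
  rw [h2] at h1
  exact h1

end Full.LemA
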