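import Pool.Agent.Full.LemA.Xi

/-!
# Small arcs, and the amplitudes without marks
-/

set_option autoImplicit false

namespace Full.LemA

open Finset

/-- there is an arc between two neighbours -/
theorem Pat.exists_small {n : ℕ} {f : ℕ → ℕ} {k : ℕ} (P : Pat n f k) (hn : 3 ≤ n) :
    (∃ i, i + 1 < n ∧ f i = i + 1) ∨ (f 0 = n - 1 ∧ 0 < k ∧ k < n - 1) := by
  by_contra hcon
  rw [not_or] at hcon
  obtain ⟨h1, h2⟩ := hcon
  push Not at h1
  -- an arc without `k` inside contains a small arc
  have key : ∀ d a, f a = a + d → 0 < d → a + d < n → ¬(a < k ∧ k < a + d) → False := by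
    intro d
    induction d using Nat.strong_induction_on with
    | _ d ih =>
      intro a hf hd hlt hk
      rcases Nat.lt_or_ge d 2 with h3 | h3
      · have : d = 1 := by omega
        subst this
        exact h1 a hlt hf
      · -- the partner of `a + 1`
        have ha : a < n := by omega
        have hk' := P.ne_k ha hf (by omega)
        have hk1 : a + 1 ≠ k := by omega
        have g1 := P.lt (a + 1) (by omega)
        have g2 := P.inv (a + 1) (by omega)
        have g3 := P.fix (a + 1) (by omega)
        have g4 : f (a + 1) ≠ a + 1 := fun h => hk1 (g3.1 h)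
        have g5 : f (a + 1) ≠ a := by
          intro h
          rw [h] at g2
          omega
        have g6 : f (a + 1) ≠ a + d := by
          intro h
          have := P.inv a ha
          rw [hf, ← h, g2] at this
          omega
        have g7 : f (a + 1) < a + d := by
          by_contra h
          exact P.nc a (a + 1) (by omega) (by omega) (by omega) g1
        have g8 : a + 1 < f (a + 1) := by
          by_contra h
          have h8 : f (a + 1) < a := by omega
          have := P.nc (f (a + 1)) a h8 (by rw [g2]; omega) (by rw [g2, hf]; omega)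
            (by rw [hf]; omega)
          exact this
        have g9 := ih (f (a + 1) - (a + 1)) (by omega) (a + 1) (by omega) (by omega) (by omega)
          (by omega)
        exact g9
  have h0 : (0 : ℕ) < n := by omega
  have f0 := P.lt 0 h0
  have i0 := P.inv 0 h0
  have fn := P.lt (n - 1) (by omega)
  have inn := P.inv (n - 1) (by omega)
  have k0 : k ≠ 0 := by
    intro h
    have g1 := P.lt 1 (by omega)
    have g2 := P.inv 1 (by omega)
    have g3 := P.fix 1 (by omega)
    have g4 : f 1 ≠ 1 := fun hh => by have := g3.1 hh; omega
    have g5 : f 1 ≠ 0 := by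
      intro hh
      rw [hh] at g2
      have := (P.fix 0 h0).2 h.symm
      omega
    exact key (f 1 - 1) 1 (by omega) (by omega) (by omega) (by omega)
  have kn : k ≠ n - 1 := by
    intro h
    have g4 : f 0 ≠ 0 := fun hh => k0 ((P.fix 0 h0).1 hh).symm
    have g5 : f 0 ≠ n - 1 := by
      intro hh
      rw [hh] at i0
      have := (P.fix (n - 1) (by omega)).2 h.symm
      omega
    exact key (f 0) 0 (by omega) (by omega) (by omega) (by omega)
  have g4 : f 0 ≠ 0 := fun hh => k0 ((P.fix 0 h0).1 hh).symm
  have g5 : f 0 ≠ n - 1 := fun hh => h2 ⟨hh, by omega, by have := P.hk; omega⟩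
  have g6 : 0 < k ∧ k < f 0 := by
    by_contra h
    exact key (f 0) 0 (by omega) (by omega) (by omega) (by omega)
  have g7 : f (n - 1) ≠ n - 1 := fun hh => kn ((P.fix _ (by omega)).1 hh).symm
  have g8 : f (n - 1) ≠ 0 := by
    intro hh
    rw [hh] at inn
    exact g5 inn
  have g9 : f (n - 1) < k := by
    by_contra h
    have hk9 : f (n - 1) ≠ k := by
      intro hh
      rw [hh] at inn
      have := (P.fix k P.hk).2 rfl
      omega
    exact key (n - 1 - f (n - 1)) (f (n - 1)) (by omega) (by omega) (by omega) (by omega)
  exact P.nc 0 (f (n - 1)) (by omega) (by omega) (by rw [inn]; omega) (by rw [inn]; omega)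

/-- one end -/
lemma Xi_one {x : ℂ} {f : ℕ → ℕ} {k : ℕ} {H : ℕ → ℤ} (P : Pat 1 f k) :
    Xi x 1 f k H = x ^ (-(H 0)) := by
  have hk : k = 0 := by have := P.hk; omega
  have hf : f 0 = 0 := (P.fix 0 (by omega)).2 hk.symm
  unfold Xi Aw
  rw [prod_range_one, hf, if_neg (by omega), hk]
  push_cast
  ring

/-- the coefficients of an interval -/
def ind (a b j : ℕ) : ℤ := if a ≤ j ∧ j ≤ b then 1 else 0

lemma W_val : W 0 = 1 ∧ W 1 = 0 ∧ W 2 = -1 ∧ W (-1) = 1 ∧ W (-2) = 0 := by
  refine ⟨?_, ?_, ?_, ?_, ?_⟩ <;> decide

/-- charge `-2` at the reference, charge `2` in the gaps `0, …, b`, `b` even -/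
theorem S_two {x : ℂ} : ∀ n, ∀ f k b, Pat n f k → n % 2 = 1 → b % 2 = 0 → b ≤ n →
    S x n f k (fun _ => -2) (ind 0 b) = 1 := by
  obtain ⟨w0, w1, w2, wm1, wm2⟩ := W_val
  intro n
  induction n using Nat.strong_induction_on with
  | _ n ih =>
    intro f k b P hn hb hbn
    rcases Nat.lt_or_ge n 3 with h3 | h3
    · have h1 : n = 1 := by omega
      subst h1
      have h2 : b = 0 := by omega
      subst h2
      unfold S
      rw [sum_range_succ, sum_range_one, Xi_one P, Xi_one P]
      unfold ind kk
      simp
    · rcases P.exists_small h3 with ⟨i, hi, hf⟩ | ⟨hf, hk0, hk1⟩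
      · rw [S_lin P hi hf]
        have P' := (rm_lin hi).pat P (by omega) hf (by omega)
        have hq : (-2 : ℤ) - -2 = 0 := by norm_num
        by_cases hb1 : b ≤ i
        · rw [S_congr (c' := ind 0 b) P' (fun s _ => rfl) ?_]
          · exact ih _ (by omega) _ _ _ P' (by omega) hb (by omega)
          · intro j hj
            unfold cl ind
            rw [hq, zero_add, w0, w2]
            split_ifs <;> omega
        · rw [S_congr (c' := ind 0 (b - 2)) P' (fun s _ => rfl) ?_]
          · exact ih _ (by omega) _ _ _ P' (by omega) (by omega) (by omega)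
          · intro j hj
            unfold cl ind
            rw [hq, zero_add, w0, w2]
            split_ifs <;> omega
      · rw [S_cyc P h3 hk0 hk1 hf]
        have P' := (rm_cyc h3).pat P (by omega) hf (by omega)
        have hq : (-2 : ℤ) - (-2 - -2) = -2 := by norm_num
        have hq' : (-2 : ℤ) + 2 = 0 := by norm_num
        rw [S_congr (c' := ind 0 0) P' (fun s _ => rfl) ?_]
        · exact ih _ (by omega) _ _ _ P' (by omega) (by omega) (by omega)
        · intro j hj
          unfold cc ind
          rw [hq, hq', w0, wm2]
          split_ifs <;> omega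

/-- constant potential: no charges between the ends -/
lemma Xi_const {x : ℂ} {n : ℕ} {f : ℕ → ℕ} {k : ℕ} {H : ℕ → ℤ} (P : Pat n f k) (h : ℤ)
    (hH : ∀ s, s < n → H s = h) : Xi x n f k H = x ^ (-h) := by
  unfold Xi Aw
  rw [hH k P.hk, prod_eq_one, Int.cast_one, one_mul]
  intro a ha
  rw [mem_range] at ha
  unfold aw
  rw [hH a ha, hH _ (P.lt a ha), sub_self, neg_zero, ite_self, W_val.1, ite_self]

/-- the charges `-1` at the reference and in the gap `m` -/
def bg (m s : ℕ) : ℤ := -1 - (if m ≤ s then 1 else 0)

/-- charges `-1` at the reference and in the gap `m`, charge `2` in the gaps `m, …, n` -/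
theorem S_one {x : ℂ} (hx : x ^ 2 - x + 1 = 0) : ∀ n, ∀ f k m, Pat n f k → n % 2 = 1 → m ≤ n →
    S x n f k (bg m) (ind m n) = x := by
  obtain ⟨w0, w1, w2, wm1, wm2⟩ := W_val
  have x0 : x ≠ 0 := by
    rintro rfl
    norm_num at hx
  have hx2 : x ^ (-(-2 : ℤ)) = x ^ 2 := by norm_cast
  intro n
  induction n using Nat.strong_induction_on with
  | _ n ih =>
    intro f k m P hn hmn
    rcases Nat.lt_or_ge n 3 with h3 | h3
    · have h1 : n = 1 := by omega
      subst h1
      have h2 : m = 0 ∨ m = 1 := by omega
      unfold S
      rw [sum_range_succ, sum_range_one, Xi_one P, Xi_one P]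
      rcases h2 with rfl | rfl
      · unfold ind kk bg
        norm_num
        linear_combination hx
      · unfold ind kk bg
        norm_num
    · rcases P.exists_small h3 with ⟨i, hi, hf⟩ | ⟨hf, hk0, hk1⟩
      · rw [S_lin P hi hf]
        have P' := (rm_lin hi).pat P (by omega) hf (by omega)
        by_cases hb1 : m = i + 1
        · have hq : bg m (i + 1) - bg m i = -1 := by unfold bg; split_ifs <;> omega
          have hq' : (-1 : ℤ) + 2 = 1 := by norm_num
          rw [S_congr (c' := ind i (n - 2)) (H' := bg i) P' ?_ ?_]
          · exact ih _ (by omega) _ _ _ P' (by omega) (by omega)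
          · intro s hs
            unfold bg skl
            simp only [Function.comp_apply]
            split_ifs <;> omega
          · intro j hj
            rw [hq]
            unfold cl ind
            rw [hq', w1, wm1]
            split_ifs <;> omega
        · have hq : bg m (i + 1) - bg m i = 0 := by unfold bg; split_ifs <;> omega
          have hq' : (0 : ℤ) + 2 = 2 := by norm_num
          rw [S_congr (c' := ind (if m ≤ i then m else m - 2) (n - 2))
            (H' := bg (if m ≤ i then m else m - 2)) P' ?_ ?_]
          · exact ih _ (by omega) _ _ _ P' (by omega) (by split_ifs <;> omega)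
          · intro s hs
            unfold bg skl
            simp only [Function.comp_apply]
            split_ifs <;> omega
          · intro j hj
            rw [hq]
            unfold cl ind
            rw [hq', w0, w2]
            split_ifs <;> omega
      · rw [S_cyc P h3 hk0 hk1 hf]
        have P' := (rm_cyc h3).pat P (by omega) hf (by omega)
        by_cases hm0 : m = 0
        · subst hm0
          have hq : (-2 : ℤ) - (bg 0 (n - 1) - bg 0 0) = -2 := by unfold bg; simp
          have hq' : (-2 : ℤ) + 2 = 0 := by norm_num
          rw [hq]
          have c0 : cc n (-2) (ind 0 n) 0 = 1 := by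
            unfold cc ind
            rw [hq', w0, wm2]
            split_ifs <;> omega
          have c1 : cc n (-2) (ind 0 n) (n - 2) = 1 := by
            unfold cc ind
            rw [hq', w0, wm2]
            split_ifs <;> omega
          have c2 : ∀ j, j < n - 3 → cc n (-2) (ind 0 n) (1 + j) = 0 := by
            intro j hj
            unfold cc ind
            rw [wm2]
            split_ifs <;> omega
          unfold S
          rw [sum_c2 _ h3, c0, c1, sum_eq_zero (fun j hj => by
            rw [mem_range] at hj
            rw [c2 j hj, Int.cast_zero, zero_mul])]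
          have e0 := Xi_const (x := x) (H := kk (fun t => bg 0 (t + 1)) 0) P' 0 (fun s _ => by
            unfold kk bg; simp)
          have e1 := Xi_const (x := x) (H := kk (fun t => bg 0 (t + 1)) (n - 2)) P' (-2) (fun s hs => by
            unfold kk bg
            rw [if_neg (by omega)]
            simp)
          have e0' : Xi x (n - 2) (rf (fun t => t + 1) (fun s => s - 1) f) (k - 1)
              (kk (fun t => bg 0 (t + 1)) 0) = x ^ (-(0 : ℤ)) := e0
          have e1' : Xi x (n - 2) (rf (fun t => t + 1) (fun s => s - 1) f) (k - 1)
              (kk (fun t => bg 0 (t + 1)) (n - 2)) = x ^ (-(-2 : ℤ)) := e1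
          rw [e0', e1', hx2]
          simp only [Int.cast_one, one_mul, neg_zero, zpow_zero, add_zero]
          linear_combination hx
        · by_cases hmn2 : m = n
          · subst hmn2
            have hq : (-2 : ℤ) - (bg m (m - 1) - bg m 0) = -2 := by unfold bg; split_ifs <;> omega
            have hq' : (-2 : ℤ) + 2 = 0 := by norm_num
            rw [hq, S_congr (c' := ind (m - 2) (m - 2)) (H' := bg (m - 2)) P' ?_ ?_]
            · exact ih _ (by omega) _ _ _ P' (by omega) (by omega)
            · intro s hs
              unfold bg
              split_ifs <;> omega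
            · intro j hj
              unfold cc ind
              rw [hq', w0, wm2]
              split_ifs <;> omega
          · have hq : (-2 : ℤ) - (bg m (n - 1) - bg m 0) = -1 := by
              unfold bg; split_ifs <;> omega
            have hq' : (-1 : ℤ) + 2 = 1 := by norm_num
            rw [hq, S_congr (c' := ind (m - 1) (n - 2)) (H' := bg (m - 1)) P' ?_ ?_]
            · exact ih _ (by omega) _ _ _ P' (by omega) (by omega)
            · intro s hs
              unfold bg
              split_ifs <;> omega
            · intro j hj
              unfold cc ind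
              rw [hq', w1, wm1]
              split_ifs <;> omega

end Full.LemA
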