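import Pool.Agent.Full.LemA.Exit

/-!
# Lemma A

The sum over the positions of the charge `2` between the marks `e2` and `e3` of the amplitudes of an
open pattern depends only on the mark at which the strand of `z` leaves the closed wall: it is `0`, `x`,
`1` for `e1`, `e2`, `e3`, `x = exp (i π / 3)` (or its conjugate).
-/

set_option autoImplicit false

namespace Full.LemA

open Finset

lemma S_zero {x : ℂ} {n : ℕ} {f : ℕ → ℕ} {k : ℕ} {H : ℕ → ℤ} {c : ℕ → ℤ}
    (hc : ∀ j, j ≤ n → c j = 0) : S x n f k H c = 0 := by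
  unfold S
  refine sum_eq_zero fun j hj => ?_
  rw [mem_range] at hj
  rw [hc j (by omega), Int.cast_zero, zero_mul]

/-- the gap after the removal of the arc `(i, i + 1)` -/
def gm (i m : ℕ) : ℕ := if m ≤ i then m else if m = i + 1 then i else m - 2

lemma bg_skl (m i s : ℕ) : bg m (skl i s) = bg (gm i m) s := by
  unfold bg skl gm
  split_ifs <;> omega

lemma cl_ind {i m e j : ℕ} (h0 : m ≤ e) (_h1 : m = i + 1 → i + 2 ≤ e) (h2 : i + 1 = e → 1 ≤ i) :
    cl i (bg m (i + 1) - bg m i) (ind m e) j = ind (gm i m) (El i e) j := by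
  obtain ⟨w0, w1, w2, wm1, wm2⟩ := W_val
  by_cases hb1 : m = i + 1
  · have hq : bg m (i + 1) - bg m i = -1 := by unfold bg; split_ifs <;> omega
    have hq' : (-1 : ℤ) + 2 = 1 := by norm_num
    rw [hq]
    unfold cl ind El gm
    rw [hq', w1, wm1]
    split_ifs <;> omega
  · have hq : bg m (i + 1) - bg m i = 0 := by unfold bg; split_ifs <;> omega
    have hq' : (0 : ℤ) + 2 = 2 := by norm_num
    rw [hq]
    unfold cl ind El gm
    rw [hq', w0, w2]
    split_ifs <;> omega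

lemma cl_zero {i m j : ℕ} (h0 : m = i ∨ m = i + 1) :
    cl i (bg m (i + 1) - bg m i) (ind m (i + 1)) j = 0 := by
  obtain ⟨w0, w1, w2, wm1, wm2⟩ := W_val
  by_cases hb1 : m = i + 1
  · have hq : bg m (i + 1) - bg m i = -1 := by unfold bg; split_ifs <;> omega
    have hq' : (-1 : ℤ) + 2 = 1 := by norm_num
    rw [hq]
    unfold cl ind
    rw [hq', w1, wm1]
    split_ifs <;> omega
  · have hq : bg m (i + 1) - bg m i = 0 := by unfold bg; split_ifs <;> omega
    have hq' : (0 : ℤ) + 2 = 2 := by norm_num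
    rw [hq]
    unfold cl ind
    rw [hq', w0, w2]
    split_ifs <;> omega

lemma cc_ind {n m e j : ℕ} (hn : 3 ≤ n) (h0 : 1 ≤ m) (h1 : m ≤ e) (h2 : e ≤ n - 1)
    (_hj : j ≤ n - 2) :
    cc n (-2 - (bg m (n - 1) - bg m 0)) (ind m e) j = ind (m - 1) (e - 1) j := by
  obtain ⟨w0, w1, w2, wm1, wm2⟩ := W_val
  have hq : (-2 : ℤ) - (bg m (n - 1) - bg m 0) = -1 := by unfold bg; split_ifs <;> omega
  have hq' : (-1 : ℤ) + 2 = 1 := by norm_num
  rw [hq]
  unfold cc ind
  rw [hq', w1, wm1]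
  split_ifs <;> omega

lemma cc_ind0 {n e j : ℕ} (hn : 3 ≤ n) (h2 : e ≤ n - 1) :
    cc n (-2 - (bg 0 (n - 1) - bg 0 0)) (ind 0 e) j = ind 0 0 j := by
  obtain ⟨w0, w1, w2, wm1, wm2⟩ := W_val
  have hq : (-2 : ℤ) - (bg 0 (n - 1) - bg 0 0) = -2 := by unfold bg; simp
  have hq' : (-2 : ℤ) + 2 = 0 := by norm_num
  rw [hq]
  unfold cc ind
  rw [hq', w0, wm2]
  split_ifs <;> omega

lemma bg_zero (s : ℕ) : bg 0 s = -2 := by unfold bg; simp

lemma bg_succ {m : ℕ} (s : ℕ) : bg m (s + 1) = bg (m - 1) s := by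
  unfold bg
  split_ifs <;> omega

lemma term_lin {n i e e1 e2 e3 : ℕ} (hi : i + 1 < n)
    (h1 : (e1 = 0 ∧ e1 < e2) ∨ (e1 + 1 = n ∧ e3 < e1)) (h23 : e2 < e3)
    (x1 : i = e1 ∨ i = e2 ∨ i = e3) (x2 : i + 1 = e1 ∨ i + 1 = e2 ∨ i + 1 = e3)
    (E3 : e = e1 ∨ e = e2 ∨ e = e3) (n1 : e ≠ i) (n2 : e ≠ i + 1) :
    (i = 0 ∧ e1 = 0 ∧ e2 = 1 ∧ e = e3) ∨ (i = e2 ∧ i + 1 = e3 ∧ e = e1) ∨
      (i = e3 ∧ i + 1 = e1 ∧ e = e2) := by
  rcases x1 with h | h | h <;> rcases x2 with h' | h' | h' <;> omega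

lemma term_cyc {n e e1 e2 e3 : ℕ} (hn : 3 ≤ n)
    (h1 : (e1 = 0 ∧ e1 < e2) ∨ (e1 + 1 = n ∧ e3 < e1)) (h23 : e2 < e3) (h3 : e3 < n)
    (x1 : 0 = e1 ∨ 0 = e2 ∨ 0 = e3) (x2 : n - 1 = e1 ∨ n - 1 = e2 ∨ n - 1 = e3)
    (E3 : e = e1 ∨ e = e2 ∨ e = e3) (n1 : e ≠ 0) (n2 : e ≠ n - 1) :
    (e1 = 0 ∧ e3 = n - 1 ∧ e = e2) ∨ (e1 = n - 1 ∧ e2 = 0 ∧ e = e3) := by
  rcases x1 with h | h | h <;> rcases x2 with h' | h' | h' <;> omega

/-- the induction statement -/
def St (x : ℂ) (n : ℕ) : Prop := ∀ f k w e1 e2 e3 m e, Pat n f k →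
    n % 2 = 1 → Clo n w e1 e2 e3 → (m = e2 ∨ m = e2 + 1) → Ex f w k e →
    S x n f k (bg m) (ind m e3) = if e = e1 then 0 else if e = e2 then x else 1

lemma st_lin {x : ℂ} (hx : x ^ 2 - x + 1 = 0) {n : ℕ} {f : ℕ → ℕ} {k : ℕ} {w : ℕ → ℕ}
    {e1 e2 e3 m e i : ℕ} (ih : St x (n - 2)) (P : Pat n f k) (hn : n % 2 = 1)
    (C : Clo n w e1 e2 e3) (hm : m = e2 ∨ m = e2 + 1) (E : Ex f w k e) (hi : i + 1 < n)
    (hf : f i = i + 1) :
    S x n f k (bg m) (ind m e3) = if e = e1 then 0 else if e = e2 then x else 1 := by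
  have me3 : m ≤ e3 := by
    have := C.h23
    omega
  have E2 := E.lt P.lt C.lt P.hk
  have E3 := (C.fix e E2).1 E.fix
  have c1 := C.h1
  have c2 := C.h23
  have c3 := C.h3
  have c4 := C.par
  have R := rm_lin hi
  have P' := R.pat P (by omega) hf (by omega)
  have hk := P.ne_k (by omega) hf (by omega)
  have hfb := P.fb (by omega) hf
  rw [S_lin P hi hf]
  by_cases hnb : w i = i ∧ w (i + 1) = i + 1
  · -- the arc joins two marks
    have x1 := (C.fix i (by omega)).1 hnb.1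
    have x2 := (C.fix (i + 1) hi).1 hnb.2
    have E4 := E.ne P.inv P.lt C.inv C.lt hf hfb hnb.1 hnb.2 P.hk hk.1 hk.2
    have cs := term_lin hi c1 c2 x1 x2 E3 E4.1 E4.2
    clear x1 x2 E3 E4 c1 E2
    rcases cs with ⟨g1, g2, g3, g4⟩ | ⟨g1, g2, g4⟩ | ⟨g1, g2, g4⟩
    · subst g1
      rw [if_neg (by omega), if_neg (by omega)]
      have t1 : gm 0 m = 0 := by unfold gm; split_ifs <;> omega
      have t2 : El 0 e3 = e3 - 2 := by unfold El; split_ifs <;> omega
      rw [S_congr (c' := ind 0 (e3 - 2)) (H' := fun _ => -2) P' ?_ ?_]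
      · exact S_two _ _ _ _ P' (by omega) (by omega) (by omega)
      · intro s hs
        show bg m (skl 0 s) = -2
        rw [bg_skl, t1, bg_zero]
      · intro j hj
        rw [cl_ind (by omega) (by omega) (by omega), t1, t2]
    · rw [if_pos g4]
      refine S_zero fun j hj => ?_
      rw [← g2]
      exact cl_zero (by omega)
    · rw [if_neg (by omega), if_pos g4]
      have t1 : gm i m = m := by unfold gm; split_ifs <;> omega
      have t2 : El i e3 = n - 2 := by
        have : e1 + 1 = n := by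
          have := C.h1
          omega
        unfold El
        split_ifs <;> omega
      have t3 : m ≤ n - 2 := by
        have := C.h1
        omega
      rw [S_congr (c' := ind m (n - 2)) (H' := bg m) P' ?_ ?_]
      · exact S_one hx _ _ _ _ P' (by omega) t3
      · intro s hs
        show bg m (skl i s) = bg m s
        rw [bg_skl, t1]
      · intro j hj
        rw [cl_ind (by omega) (by omega) (by omega), t1, t2]
  · obtain ⟨C', hmk⟩ := C.lin hi hnb
    have E' := (E.rem R P.inv P.lt C.inv C.lt (by omega) hi (by omega) hf hfb P.hk).1 hk.1 hk.2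
    obtain ⟨h1, h2, h3, -⟩ := hmk e E3
    rw [h1] at E'
    have x1 := C.fix i (by omega)
    have x2 := C.fix (i + 1) hi
    have y1 : (i + 1 = e2 ∨ i + 1 = e3) → 1 ≤ i := by
      intro h
      by_contra h0
      have h0' : i = 0 := by omega
      subst h0'
      have a0 := C.adj 0 (by omega)
      have t1 : w 1 = 1 := x2.2 (by omega)
      have t2 := C.inv 0 (by omega)
      have t3 : w 0 ≠ 0 := fun h => hnb ⟨h, t1⟩
      have t4 : w 0 = 1 := by
        clear x1 x2 hmk ih E hnb c1 c4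
        omega
      rw [t4] at t2
      omega
    have y3 : i + 1 = e3 → i ≠ e2 := by
      intro h h'
      exact hnb ⟨x1.2 (Or.inr (Or.inl h')), x2.2 (Or.inr (Or.inr h))⟩
    clear x1 x2
    have y4 : m = i + 1 → i + 2 ≤ e3 := by
      clear E' hmk C' E2 E3 h1 h2 h3 P' R hnb c4 c1 ih y1
      intro h
      by_contra h5
      have h6 : i + 1 = e3 := by omega
      exact y3 h6 (by omega)
    have hm' : gm i m = El i e2 ∨ gm i m = El i e2 + 1 := by
      clear E' hmk C' E2 E3 h1 h2 h3 P' R hnb c4 c1 ih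
      unfold El gm
      split_ifs <;> omega
    have IH := ih _ _ _ _ _ _ (gm i m) _ P' (by omega) C' hm' E'
    have e4 : (if El i e = El i e1 then (0 : ℂ) else if El i e = El i e2 then x else 1) =
        if e = e1 then 0 else if e = e2 then x else 1 := by
      simp only [h2, h3]
    rw [← e4, ← IH]
    refine S_congr P' ?_ ?_
    · intro s hs
      exact bg_skl m i s
    · intro j hj
      exact cl_ind me3 y4 (fun h => y1 (Or.inr h))

lemma st_cyc {x : ℂ} (hx : x ^ 2 - x + 1 = 0) {n : ℕ} {f : ℕ → ℕ} {k : ℕ} {w : ℕ → ℕ}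
    {e1 e2 e3 m e : ℕ} (ih : St x (n - 2)) (P : Pat n f k) (hn : n % 2 = 1)
    (C : Clo n w e1 e2 e3) (hm : m = e2 ∨ m = e2 + 1) (E : Ex f w k e) (n3 : 3 ≤ n)
    (hf : f 0 = n - 1) (hk0 : 0 < k) (hk1 : k < n - 1) :
    S x n f k (bg m) (ind m e3) = if e = e1 then 0 else if e = e2 then x else 1 := by
  have me3 : m ≤ e3 := by
    have := C.h23
    omega
  have E2 := E.lt P.lt C.lt P.hk
  have E3 := (C.fix e E2).1 E.fix
  have c1 := C.h1
  have c2 := C.h23
  have c3 := C.h3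
  have c4 := C.par
  have R := rm_cyc n3
  have P' := R.pat P (by omega) hf (by omega)
  have hfb := P.fb (by omega) hf
  rw [S_cyc P n3 hk0 hk1 hf]
  by_cases hnb : w 0 = 0 ∧ w (n - 1) = n - 1
  · have x1 := (C.fix 0 (by omega)).1 hnb.1
    have x2 := (C.fix (n - 1) (by omega)).1 hnb.2
    have E4 := E.ne P.inv P.lt C.inv C.lt hf hfb hnb.1 hnb.2 P.hk (by omega) (by omega)
    have cs := term_cyc n3 c1 c2 c3 x1 x2 E3 E4.1 E4.2
    clear x1 x2 E3 E4 c1
    rcases cs with ⟨g1, g2, g3⟩ | ⟨g1, g2, g3⟩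
    · rw [if_neg (by omega), if_pos g3]
      rw [S_congr (c' := ind (m - 1) (n - 2)) (H' := bg (m - 1)) P' ?_ ?_]
      · exact S_one hx _ _ _ _ P' (by omega) (by omega)
      · intro s hs
        exact bg_succ s
      · intro j hj
        rw [cc_ind n3 (by omega) (by omega) (by omega) hj, g2]
        rfl
    · rw [if_neg (by omega), if_neg (by omega)]
      rcases hm with hm | hm
      · rw [hm, g2]
        rw [S_congr (c' := ind 0 0) (H' := fun _ => -2) P' ?_ ?_]
        · exact S_two _ _ _ _ P' (by omega) (by omega) (by omega)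
        · intro s hs
          exact bg_zero _
        · intro j hj
          exact cc_ind0 n3 (by omega)
      · rw [hm, g2]
        rw [S_congr (c' := ind 0 (e3 - 1)) (H' := fun _ => -2) P' ?_ ?_]
        · exact S_two _ _ _ _ P' (by omega) (by omega) (by omega)
        · intro s hs
          show bg (0 + 1) (s + 1) = -2
          rw [bg_succ]
          exact bg_zero _
        · intro j hj
          exact cc_ind n3 (by omega) (by omega) (by omega) hj
  · obtain ⟨C', hmk⟩ := C.cyc n3 hnb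
    have E' := (E.rem R P.inv P.lt C.inv C.lt (by omega) (by omega) (by omega) hf hfb P.hk).1
      (by omega) (by omega)
    obtain ⟨h1, h2, h3, -⟩ := hmk e E3
    rw [h1] at E'
    have y1 : 1 ≤ e2 ∧ e3 < n - 1 := by
      have x1 := (C.fix 0 (by omega)).2
      have x2 := (C.fix (n - 1) (by omega)).2
      clear E' hmk C' E2 E3 h1 h2 h3 P' R c4 ih E P C hfb
      rcases c1 with ⟨g1, g2⟩ | ⟨g1, g2⟩
      · have t1 : e3 ≠ n - 1 := fun h => hnb ⟨x1 (Or.inl g1.symm), x2 (Or.inr (Or.inr h.symm))⟩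
        clear x1 x2 hnb
        omega
      · have t0 : n - 1 = e1 := by omega
        have t1 : e2 ≠ 0 := fun h => hnb ⟨x1 (Or.inr (Or.inl h.symm)), x2 (Or.inl t0)⟩
        clear x1 x2 hnb
        omega
    obtain ⟨t2, t3, hm', y5, y6⟩ : Ec n e2 = e2 - 1 ∧ Ec n e3 = e3 - 1 ∧
        (m - 1 = Ec n e2 ∨ m - 1 = Ec n e2 + 1) ∧ 1 ≤ m ∧ e3 ≤ n - 1 := by
      clear E' hmk C' E2 E3 h1 h2 h3 P' R hnb c4 c1 ih
      have t2 : Ec n e2 = e2 - 1 := by unfold Ec; split_ifs <;> omega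
      have t3 : Ec n e3 = e3 - 1 := by unfold Ec; split_ifs <;> omega
      rw [t2, t3]
      refine ⟨rfl, rfl, ?_, ?_, ?_⟩ <;> omega
    have IH := ih _ _ _ _ _ _ (m - 1) _ P' (by omega) C' hm' E'
    have e4 : (if Ec n e = Ec n e1 then (0 : ℂ) else if Ec n e = Ec n e2 then x else 1) =
        if e = e1 then 0 else if e = e2 then x else 1 := by
      simp only [h2, h3]
    rw [← e4, ← IH]
    refine S_congr P' ?_ ?_
    · intro s hs
      exact bg_succ s
    · intro j hj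
      rw [t3]
      exact cc_ind n3 y5 me3 y6 hj

/-- **Lemma A** -/
theorem lemmaA {x : ℂ} (hx : x ^ 2 - x + 1 = 0) : ∀ n, St x n := by
  intro n
  induction n using Nat.strong_induction_on with
  | _ n ih =>
    intro f k w e1 e2 e3 m e P hn C hm E
    have c1 := C.h1
    have c2 := C.h23
    have c3 := C.h3
    have n3 : 3 ≤ n := by omega
    rcases P.exists_small n3 with ⟨i, hi, hf⟩ | ⟨hf, hk0, hk1⟩
    · exact st_lin hx (ih _ (by omega)) P hn C hm E hi hf
    · exact st_cyc hx (ih _ (by omega)) P hn C hm E n3 hf hk0 hk1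

end Full.LemA
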