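import Pool.Agent.Full.X3.Split
import Pool.Agent.Full.Def.Shape
import Pool.Agent.Full.LemA.Dict
import Pool.Agent.Full.LemA.Main

/-!
# Lemma A for the strands of a region with the interior end `z`

`link`: the sum of the products of the weights over the positions of the charge `2`.
-/

set_option autoImplicit false

namespace Full.LemA
open Full Full.X3 Function Finset

lemma wq_W (s : ℤ) : wq s = (W s : ℂ) := by
  rw [wq_val]
  unfold W
  split_ifs <;> simp

/-! ### parities -/

/-- an open pattern has an odd number of ends -/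
theorem Pat.odd : ∀ n, ∀ f k, Pat n f k → n % 2 = 1 := by
  intro n
  induction n using Nat.strong_induction_on with
  | _ n ih =>
    intro f k P
    by_cases hn : 3 ≤ n
    · rcases P.exists_small hn with ⟨i, hi, hf⟩ | ⟨hf, hk0, hk1⟩
      · have := ih (n - 2) (by omega) _ _ ((rm_lin hi).pat P (by omega) hf (by omega))
        omega
      · have := ih (n - 2) (by omega) _ _ ((rm_cyc hn).pat P (by omega) hf (by omega))
        omega
    · have h1 := P.hk
      by_contra h
      have h2 : n = 2 := by omega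
      subst h2
      have h3 : 1 - k < 2 := by omega
      have h4 := P.lt (1 - k) h3
      have h5 := P.inv (1 - k) h3
      have h6 := (P.fix (1 - k) h3).not.2 (by omega)
      have h7 : f (1 - k) = k := by omega
      have h8 := (P.fix k h1).2 rfl
      rw [h7, h8] at h5
      omega

/-- the number of positions between two consecutive marks is even -/
theorem par_marks {n : ℕ} {v : ℕ → ℕ} {e e' : ℕ} (hlt : ∀ s, s < n → v s < n)
    (hinv : ∀ s, s < n → v (v s) = s)
    (hadj : ∀ s, s < n → v s = s ∨ v s = s + 1 ∨ s = v s + 1) (he : v e = e) (he' : v e' = e')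
    (hee : e < e') (hn : e' < n) (hfix : ∀ s, e < s → s < e' → v s ≠ s) : (e' - e) % 2 = 1 := by
  have key : ∀ i, e + 2 * i < e' → e + 2 * i + 1 = e' ∨
      (v (e + 2 * i + 1) = e + 2 * i + 2 ∧ e + 2 * i + 2 < e') := by
    intro i
    induction i with
    | zero =>
      intro _
      by_cases h1 : e + 1 = e'
      · left; omega
      · right
        have h2 := hadj (e + 1) (by omega)
        have h3 := hfix (e + 1) (by omega) (by omega)
        have h4 := hinv (e + 1) (by omega)
        have h5 : v (e + 1) = e + 2 := by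
          rcases h2 with h2 | h2 | h2
          · exact absurd h2 h3
          · exact h2
          · exfalso
            have h6 : v (e + 1) = e := by omega
            rw [h6, he] at h4
            omega
        have h6 : e + 2 ≠ e' := by
          intro h6
          rw [h5, h6, he'] at h4
          omega
        constructor
        · exact h5
        · omega
    | succ i ih =>
      intro hi
      rcases ih (by omega) with h1 | ⟨h1, h2⟩
      · omega
      · by_cases h3 : e + 2 * (i + 1) + 1 = e'
        · left; exact h3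
        · right
          obtain ⟨s, hs⟩ : ∃ s, s = e + 2 * (i + 1) + 1 := ⟨_, rfl⟩
          have hs1 : e + 2 * i + 2 = s - 1 := by omega
          have hs2 : e + 2 * i + 1 = s - 2 := by omega
          have hs3 : 3 ≤ s := by omega
          have hs4 : e + 2 * (i + 1) + 2 = s + 1 := by omega
          rw [hs1, hs2] at h1
          rw [← hs] at h3
          rw [hs4, ← hs]
          have hs5 : s < e' := by omega
          have k2 := hadj s (by omega)
          have k3 := hfix s (by omega) hs5
          have k4 := hinv s (by omega)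
          have k5 := hinv (s - 2) (by omega)
          rw [h1] at k5
          have h5 : v s = s + 1 := by
            rcases k2 with k2 | k2 | k2
            · exact absurd k2 k3
            · exact k2
            · exfalso
              have h6 : v s = s - 1 := by omega
              rw [h6, k5] at k4
              omega
          have h6 : s + 1 ≠ e' := by
            intro h6
            rw [h5, h6, he'] at k4
            omega
          exact ⟨h5, by omega⟩
  by_contra hp
  have h1 := key ((e' - e) / 2 - 1 + 1 - 1) (by omega)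
  have h2 : (e' - e) % 2 = 0 := by omega
  have h3 : 1 ≤ (e' - e) / 2 := by omega
  rcases h1 with h1 | ⟨-, h1⟩ <;> omega

variable {τ : Type*} [DecidableEq τ] {T : Finset τ} {g w : Half τ → Half τ} {ω : Finset τ}
  {z : Half τ} {n : ℕ} {el : ℕ → Half τ} {ps : Half τ → ℕ}

/-- the strands as an open pattern -/
theorem Ls.pat (L : Ls T g z n el ps) (hG : Glu T g) (hz : Bd T g z)
    (hnc : ∀ u ∈ free T g ω z, ∀ v ∈ free T g ω z, ps u < ps v → ps v < ps (other (mate ω) g u) →
      ps (other (mate ω) g u) < ps (other (mate ω) g v) → False) :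
    Pat n (pf ω g z el ps) (ps (other (mate ω) g z)) := by
  have hkb := hG.other_bd (ω := ω) hz
  have hkn := hG.other_ne (ω := ω) hz
  have hk := L.pos _ hkb hkn
  -- an end which is not the end of `z`
  have hfree : ∀ s, s < n → s ≠ ps (other (mate ω) g z) → el s ∈ free T g ω z := by
    intro s hs h1
    obtain ⟨h2, h3, h4⟩ := L.get s hs
    refine mem_free.2 ⟨h2, h3, fun h5 => h1 ?_⟩
    rw [← h4, h5]
  have hval : ∀ s, s < n → s ≠ ps (other (mate ω) g z) →
      pf ω g z el ps s = ps (other (mate ω) g (el s)) ∧ pf ω g z el ps s < n ∧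
        pf ω g z el ps s ≠ ps (other (mate ω) g z) ∧ pf ω g z el ps s ≠ s ∧
        el (pf ω g z el ps s) = other (mate ω) g (el s) := by
    intro s hs h1
    have h2 := hfree s hs h1
    have h3 := mem_free.1 (free_other hG hz h2)
    have h4 : pf ω g z el ps s = ps (other (mate ω) g (el s)) := if_neg h1
    have h5 := L.pos _ h3.1 h3.2.1
    rw [h4]
    refine ⟨rfl, h5.1, fun h6 => h3.2.2 (L.inj h3.1 h3.2.1 hkb hkn h6), fun h6 => ?_, h5.2⟩
    have h7 := hG.other_ne (ω := ω) (mem_free.1 h2).1
    apply h7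
    rw [← h5.2, h6]
  refine ⟨fun s hs => ?_, fun s hs => ?_, hk.1, fun s hs => ?_, fun a b h1 h2 h3 h4 => ?_⟩
  · by_cases h : s = ps (other (mate ω) g z)
    · unfold pf
      rw [if_pos h]
      exact hs
    · exact (hval s hs h).2.1
  · by_cases h : s = ps (other (mate ω) g z)
    · have : pf ω g z el ps s = s := if_pos h
      rw [this, this]
    · obtain ⟨-, h2, h3, -, h5⟩ := hval s hs h
      rw [(hval _ h2 h3).1, h5, hG.other_other (L.get s hs).1, (L.get s hs).2.2]
  · constructor
    · intro h1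
      by_contra h
      exact (hval s hs h).2.2.2.1 h1
    · intro h1
      exact if_pos h1
  · have hb : b < n := by
      have : pf ω g z el ps a < n := by omega
      omega
    have ha : a < n := by omega
    have ka : a ≠ ps (other (mate ω) g z) := by
      intro h
      have : pf ω g z el ps a = a := if_pos h
      omega
    have kb : b ≠ ps (other (mate ω) g z) := by
      intro h
      have : pf ω g z el ps b = b := if_pos h
      omega
    obtain ⟨va, -⟩ := hval a ha ka
    obtain ⟨vb, -⟩ := hval b hb kb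
    have pa := (L.get a ha).2.2
    have pb := (L.get b hb).2.2
    refine hnc _ (hfree a ha ka) _ (hfree b hb kb) ?_ ?_ ?_
    · rw [pa, pb]; exact h1
    · rw [pb, ← va]; exact h2
    · rw [← va, ← vb]; exact h3

/-- the product of the weights of the strands -/
theorem Ls.prod (L : Ls T g z n el ps) (hG : Glu T g) (hz : Bd T g z) (H : ℕ → ℤ)
    (M : Half τ → ℂ)
    (hM : ∀ u ∈ free T g ω z, ps u < ps (other (mate ω) g u) →
      M u = (aw (ps (other (mate ω) g z)) H (ps u) (ps (other (mate ω) g u)) : ℂ)) :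
    ∏ u ∈ (free T g ω z).filter (fun u => ps u < ps (other (mate ω) g u)), M u =
      (Aw n (pf ω g z el ps) (ps (other (mate ω) g z)) H : ℂ) := by
  have hkb := hG.other_bd (ω := ω) hz
  have hkn := hG.other_ne (ω := ω) hz
  unfold Aw
  rw [← Finset.prod_filter, Int.cast_prod]
  refine Finset.prod_nbij' ps el ?_ ?_ ?_ ?_ ?_
  · intro u hu
    rw [Finset.mem_filter] at hu
    have h1 := mem_free.1 hu.1
    have h2 := L.pos u h1.1 h1.2.1
    have h3 : pf ω g z el ps (ps u) = ps (other (mate ω) g u) := by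
      unfold pf
      rw [if_neg, h2.2]
      intro h4
      exact h1.2.2 (L.inj h1.1 h1.2.1 hkb hkn h4)
    rw [Finset.mem_filter, Finset.mem_range, h3]
    exact ⟨h2.1, hu.2⟩
  · intro a ha
    rw [Finset.mem_filter, Finset.mem_range] at ha
    obtain ⟨h2, h3, h4⟩ := L.get a ha.1
    have h5 : a ≠ ps (other (mate ω) g z) := by
      intro h5
      have : pf ω g z el ps a = a := if_pos h5
      omega
    have h6 : pf ω g z el ps a = ps (other (mate ω) g (el a)) := if_neg h5
    rw [Finset.mem_filter, mem_free, h4, ← h6]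
    exact ⟨⟨h2, h3, fun h7 => h5 (by rw [← h4, h7])⟩, ha.2⟩
  · intro u hu
    rw [Finset.mem_filter] at hu
    have h1 := mem_free.1 hu.1
    exact (L.pos u h1.1 h1.2.1).2
  · intro a ha
    rw [Finset.mem_filter, Finset.mem_range] at ha
    exact (L.get a ha.1).2.2
  · intro u hu
    rw [Finset.mem_filter] at hu
    have h1 := mem_free.1 hu.1
    have h2 := L.pos u h1.1 h1.2.1
    have h3 : pf ω g z el ps (ps u) = ps (other (mate ω) g u) := by
      unfold pf
      rw [if_neg, h2.2]
      intro h4
      exact h1.2.2 (L.inj h1.1 h1.2.1 hkb hkn h4)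
    rw [h3, hM u hu.1 hu.2]

/-- **Lemma A for a region**: the sum over the gaps of the arc from `E 1` to `E 2` -/
theorem link (hG : Glu T g) (hz : Bd T g z) (hlt : ∀ u, Bd T g u → u ≠ z → ps u < n)
    (hinj : ∀ u v, Bd T g u → u ≠ z → Bd T g v → v ≠ z → ps u = ps v → u = v)
    (hsurj : ∀ s, s < n → ∃ u, Bd T g u ∧ u ≠ z ∧ ps u = s)
    (hnc : ∀ u ∈ free T g ω z, ∀ v ∈ free T g ω z, ps u < ps v → ps v < ps (other (mate ω) g u) →
      ps (other (mate ω) g u) < ps (other (mate ω) g v) → False)
    (E : Fin 3 → Half τ) (hE : ∀ i, Bd T g (E i)) (hEz : ∀ i, E i ≠ z) (hE0 : ps (E 0) = 0)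
    (hE01 : E 0 ≠ E 1) (hE12 : ps (E 1) < ps (E 2))
    (hw : IsW T g ({z} ∪ Set.range E) w)
    (hnear : ∀ u, Bd T g u → u ≠ z → w u ≠ u → ps (w u) = ps u + 1 ∨ ps u = ps (w u) + 1)
    {x : ℂ} (hx : x ^ 2 - x + 1 = 0) (M : ℕ → Half τ → ℂ) (Z : ℕ → ℂ)
    (hM : ∀ j ∈ Icc (ps (E 1)) (ps (E 2)), ∀ u ∈ free T g ω z, ps u < ps (other (mate ω) g u) →
      M j u = (aw (ps (other (mate ω) g z)) (kk (bg (ps (E 1))) j) (ps u)
        (ps (other (mate ω) g u)) : ℂ))
    (hZ : ∀ j ∈ Icc (ps (E 1)) (ps (E 2)), Z j = x ^ (-(kk (bg (ps (E 1))) j (ps (other (mate ω) g z))))) :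
    (∃ i, other (mate ω) w z = E i) ∧
    ∑ j ∈ Icc (ps (E 1)) (ps (E 2)),
      (∏ u ∈ (free T g ω z).filter (fun u => ps u < ps (other (mate ω) g u)), M j u) * Z j =
      if other (mate ω) w z = E 0 then 0 else if other (mate ω) w z = E 1 then x else 1 := by
  obtain ⟨el, L⟩ := exists_ls hlt hinj hsurj
  have hwz : w z = z := (hw.ends z hz).2 (Or.inl rfl)
  have hwE : ∀ i, w (E i) = E i := fun i => (hw.ends _ (hE i)).2 (Or.inr ⟨i, rfl⟩)
  have P := L.pat (ω := ω) hG hz hnc
  have hodd := Pat.odd _ _ _ P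
  have hex := ex_other (ω := ω) L hG hz hw.toExt hwz
  -- the wall
  have wbd : ∀ s, s < n → Bd T g (w (el s)) ∧ w (el s) ≠ z := by
    intro s hs
    obtain ⟨h1, h2, h3⟩ := L.get s hs
    refine ⟨⟨hw.mem _ h1.1, w_fix hG hw.toExt h1.2⟩, fun h4 => h2 ?_⟩
    rw [← hw.inv (el s), h4, hwz]
  have pE : ∀ i, el (ps (E i)) = E i := fun i => (L.pos _ (hE i) (hEz i)).2
  have vE : ∀ i, pv w el ps (ps (E i)) = ps (E i) := by
    intro i
    unfold pv
    rw [pE, hwE]
  have vlt : ∀ s, s < n → pv w el ps s < n := fun s hs => (L.pos _ (wbd s hs).1 (wbd s hs).2).1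
  have vinv : ∀ s, s < n → pv w el ps (pv w el ps s) = s := by
    intro s hs
    unfold pv
    rw [(L.pos _ (wbd s hs).1 (wbd s hs).2).2, hw.inv, (L.get s hs).2.2]
  have vfix : ∀ s, s < n → (pv w el ps s = s ↔ s = ps (E 0) ∨ s = ps (E 1) ∨ s = ps (E 2)) := by
    intro s hs
    obtain ⟨h1, h2, h3⟩ := L.get s hs
    constructor
    · intro h4
      have h5 : w (el s) = el s :=
        L.inj (wbd s hs).1 (wbd s hs).2 h1 h2 (by rw [h3]; exact h4)
      rcases (hw.ends _ h1).1 h5 with h6 | ⟨i, h6⟩
      · exact absurd h6 h2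
      · rw [← h3, ← h6]
        fin_cases i
        · exact Or.inl rfl
        · exact Or.inr (Or.inl rfl)
        · exact Or.inr (Or.inr rfl)
    · rintro (h4 | h4 | h4) <;> rw [h4] <;> exact vE _
  have vadj : ∀ s, s < n → pv w el ps s = s ∨ pv w el ps s = s + 1 ∨ s = pv w el ps s + 1 := by
    intro s hs
    obtain ⟨h1, h2, h3⟩ := L.get s hs
    unfold pv
    by_cases h4 : w (el s) = el s
    · left
      rw [h4, h3]
    · right
      have := hnear _ h1 h2 h4
      rw [h3] at this
      exact this
  have h01 : ps (E 0) ≠ ps (E 1) := fun h => hE01 (L.inj (hE 0) (hEz 0) (hE 1) (hEz 1) h)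
  have hlt1 : 0 < ps (E 1) := by
    rw [hE0] at h01
    omega
  have hlt2 : ps (E 2) < n := (L.pos _ (hE 2) (hEz 2)).1
  have hpar : (ps (E 2) - ps (E 1)) % 2 = 1 := by
    refine par_marks vlt vinv vadj (vE 1) (vE 2) hE12 hlt2 fun s h1 h2 h3 => ?_
    have h4 := (vfix s (by omega)).1 h3
    omega
  have C : Clo n (pv w el ps) (ps (E 0)) (ps (E 1)) (ps (E 2)) :=
    ⟨vlt, vinv, vadj, vfix, Or.inl ⟨hE0, by omega⟩, hE12, hlt2, hpar⟩
  -- the exit
  have hobd : Bd T g (other (mate ω) w z) := by
    have h1 := conn_jm (ω := ω) hG hw.toExt hz.2 (Two.conn_other z)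
    rw [← other_jm hG hw.toExt hz hwz] at h1
    exact ⟨hw.toGlu.conn_mem h1.2 hz.1, h1.1⟩
  have hone : other (mate ω) w z ≠ z := hw.toGlu.other_ne ⟨hz.1, hwz⟩
  have hofix : w (other (mate ω) w z) = other (mate ω) w z :=
    (hw.toGlu.other_bd (ω := ω) ⟨hz.1, hwz⟩).2
  have hexit : ∃ i, other (mate ω) w z = E i := by
    rcases (hw.ends _ hobd).1 hofix with h6 | ⟨i, h6⟩
    · exact absurd h6 hone
    · exact ⟨i, h6.symm⟩
  have hiff : ∀ i, ps (other (mate ω) w z) = ps (E i) ↔ other (mate ω) w z = E i :=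
    fun i => ⟨fun h => L.inj hobd hone (hE i) (hEz i) h, fun h => by rw [h]⟩
  refine ⟨hexit, ?_⟩
  have main := lemmaA hx n _ _ _ _ _ _ _ _ P hodd C (Or.inl rfl) hex
  simp only [hiff] at main
  rw [← main]
  unfold S
  have e1 : ∀ j ∈ Icc (ps (E 1)) (ps (E 2)),
      (∏ u ∈ (free T g ω z).filter (fun u => ps u < ps (other (mate ω) g u)), M j u) * Z j =
      (ind (ps (E 1)) (ps (E 2)) j : ℂ) * Xi x n (pf ω g z el ps) (ps (other (mate ω) g z))
        (kk (bg (ps (E 1))) j) := by
    intro j hj
    rw [hZ j hj, L.prod hG hz (kk (bg (ps (E 1))) j) (M j) (hM j hj)]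
    rw [Finset.mem_Icc] at hj
    unfold Xi ind
    rw [if_pos hj]
    push_cast
    ring
  rw [Finset.sum_congr rfl e1]
  refine Finset.sum_subset ?_ ?_
  · intro j hj
    rw [Finset.mem_Icc] at hj
    rw [Finset.mem_range]
    omega
  · intro j _ hj
    rw [Finset.mem_Icc] at hj
    unfold ind
    rw [if_neg hj]
    push_cast
    ring

end Full.LemA
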