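import Mathlib

/-!
# Open patterns with charges

`n` boundary ends `0, …, n - 1` in the order of the boundary, read from a reference point; the strand
of the interior end `z` arrives at the end `k`, the other ends are joined by non crossing arcs `f`.
Gap `g` is just before the end `g` (gap `n` is after the last end).  `H s` is the total charge on the
left of the end `s`.  The total charge is `0`.  `W` is the weight `cos (lam (s + 1/2)) / cos (lam / 2)`,
`lam = π / 3`, of an arc which has the charge `s` on the side away from `z`.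
-/

set_option autoImplicit false

namespace Full.LemA

open Finset

/-- weight of an arc -/
def W (s : ℤ) : ℤ := if s % 6 = 0 ∨ s % 6 = 5 then 1 else if s % 6 = 1 ∨ s % 6 = 4 then 0 else -1

/-- an open pattern -/
structure Pat (n : ℕ) (f : ℕ → ℕ) (k : ℕ) : Prop where
  lt : ∀ s, s < n → f s < n
  inv : ∀ s, s < n → f (f s) = s
  hk : k < n
  fix : ∀ s, s < n → (f s = s ↔ s = k)
  nc : ∀ a b, a < b → b < f a → f a < f b → f b < n → False

/-- weight of the arc from `a` to `b`, `a < b` -/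
def aw (k : ℕ) (H : ℕ → ℤ) (a b : ℕ) : ℤ :=
  if a < k ∧ k < b then W (-(H b - H a)) else W (H b - H a)

/-- product of the weights of the arcs -/
def Aw (n : ℕ) (f : ℕ → ℕ) (k : ℕ) (H : ℕ → ℤ) : ℤ :=
  ∏ a ∈ range n, if a < f a then aw k H a (f a) else 1

/-- amplitude of an open pattern; `x = exp (i lam)` (or its conjugate) -/
noncomputable def Xi (x : ℂ) (n : ℕ) (f : ℕ → ℕ) (k : ℕ) (H : ℕ → ℤ) : ℂ :=
  (Aw n f k H : ℂ) * x ^ (-(H k))

/-- an additional charge `2` in the gap `j` -/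
def kk (H : ℕ → ℤ) (j s : ℕ) : ℤ := H s + if j ≤ s then 2 else 0

/-- sum over the position of the charge `2` -/
noncomputable def S (x : ℂ) (n : ℕ) (f : ℕ → ℕ) (k : ℕ) (H : ℕ → ℤ) (c : ℕ → ℤ) : ℂ :=
  ∑ j ∈ range (n + 1), (c j : ℂ) * Xi x n f k (kk H j)

/-- removal of the ends `a` and `b` -/
structure Rm (n n' a b : ℕ) (sk usk : ℕ → ℕ) : Prop where
  hn : n = n' + 2
  lt : ∀ t, t < n' → sk t < n
  ne1 : ∀ t, t < n' → sk t ≠ a
  ne2 : ∀ t, t < n' → sk t ≠ b
  us : ∀ t, t < n' → usk (sk t) = t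
  ult : ∀ s, s < n → s ≠ a → s ≠ b → usk s < n'
  su : ∀ s, s < n → s ≠ a → s ≠ b → sk (usk s) = s
  mono : ∀ t t', t < n' → t' < n' → (sk t < sk t' ↔ t < t')

def skl (i t : ℕ) : ℕ := if t < i then t else t + 2
def uskl (i s : ℕ) : ℕ := if s < i then s else s - 2

lemma rm_lin {n i : ℕ} (h : i + 1 < n) : Rm n (n - 2) i (i + 1) (skl i) (uskl i) := by
  refine ⟨by omega, ?_, ?_, ?_, ?_, ?_, ?_, ?_⟩ <;> intros <;> simp only [skl, uskl] at * <;>
    split_ifs at * <;> omega

lemma rm_cyc {n : ℕ} (h : 3 ≤ n) : Rm n (n - 2) 0 (n - 1) (fun t => t + 1) (fun s => s - 1) := by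
  refine ⟨by omega, ?_, ?_, ?_, ?_, ?_, ?_, ?_⟩ <;> intros <;> omega

section rm

variable {n n' a b : ℕ} {sk usk : ℕ → ℕ} {f : ℕ → ℕ} {k : ℕ} {H : ℕ → ℤ}

/-- the pattern after the removal -/
def rf (sk usk f : ℕ → ℕ) (t : ℕ) : ℕ := usk (f (sk t))

lemma Pat.fb (P : Pat n f k) (ha : a < n) (hf : f a = b) : f b = a := by
  rw [← hf]
  exact P.inv a ha

lemma Pat.ne_k (P : Pat n f k) (ha : a < n) (hf : f a = b) (hab : a ≠ b) : k ≠ a ∧ k ≠ b := by
  have hb : b < n := by rw [← hf]; exact P.lt a ha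
  refine ⟨fun h => ?_, fun h => ?_⟩
  · exact hab (((P.fix a ha).2 h.symm).symm.trans hf)
  · have := (P.fix b hb).2 h.symm
    rw [P.fb ha hf] at this
    exact hab this

lemma Rm.ff (R : Rm n n' a b sk usk) (P : Pat n f k) (ha : a < n) (hf : f a = b) {t : ℕ}
    (ht : t < n') : f (sk t) < n ∧ f (sk t) ≠ a ∧ f (sk t) ≠ b := by
  have hb : b < n := by rw [← hf]; exact P.lt a ha
  have h1 := R.lt t ht
  refine ⟨P.lt _ h1, fun h => ?_, fun h => ?_⟩
  · have := P.inv _ h1
    rw [h, hf] at this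
    exact R.ne2 t ht this.symm
  · have := P.inv _ h1
    rw [h, P.fb ha hf] at this
    exact R.ne1 t ht this.symm

lemma Rm.srf (R : Rm n n' a b sk usk) (P : Pat n f k) (ha : a < n) (hf : f a = b) {t : ℕ}
    (ht : t < n') : sk (rf sk usk f t) = f (sk t) := by
  obtain ⟨h1, h2, h3⟩ := R.ff P ha hf ht
  exact R.su _ h1 h2 h3

lemma Rm.rlt (R : Rm n n' a b sk usk) (P : Pat n f k) (ha : a < n) (hf : f a = b) {t : ℕ}
    (ht : t < n') : rf sk usk f t < n' := by
  obtain ⟨h1, h2, h3⟩ := R.ff P ha hf ht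
  exact R.ult _ h1 h2 h3

theorem Rm.pat (R : Rm n n' a b sk usk) (P : Pat n f k) (ha : a < n) (hf : f a = b) (hab : a ≠ b) :
    Pat n' (rf sk usk f) (usk k) := by
  have hk := P.ne_k ha hf hab
  have hk' := R.ult k P.hk hk.1 hk.2
  have sk' := R.su k P.hk hk.1 hk.2
  refine ⟨fun s hs => R.rlt P ha hf hs, fun s hs => ?_, hk', fun s hs => ?_, ?_⟩
  · show usk (f (sk (rf sk usk f s))) = s
    rw [R.srf P ha hf hs, P.inv _ (R.lt s hs), R.us s hs]
  · have h1 := P.fix _ (R.lt s hs)
    constructor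
    · intro h
      have h2 : f (sk s) = sk s := by rw [← R.srf P ha hf hs, h]
      rw [← h1.1 h2, R.us s hs]
    · intro h
      have h2 : sk s = k := by rw [h, sk']
      have h3 := h1.2 h2
      show usk (f (sk s)) = s
      rw [h3, R.us s hs]
  · intro p q h1 h2 h3 h4
    have hq : q < n' := by omega
    have hp : p < n' := by omega
    have hp' := R.rlt P ha hf hp
    have hq' := R.rlt P ha hf hq
    refine P.nc (sk p) (sk q) ((R.mono p q hp hq).2 h1) ?_ ?_ ?_
    · rw [← R.srf P ha hf hp]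
      exact (R.mono _ _ hq hp').2 h2
    · rw [← R.srf P ha hf hp, ← R.srf P ha hf hq]
      exact (R.mono _ _ hp' hq').2 h3
    · exact P.lt _ (R.lt q hq)

theorem Rm.aw (R : Rm n n' a b sk usk) (P : Pat n f k) (hab : a < b) (hb : b < n) (hf : f a = b) :
    Aw n f k H = LemA.aw k H a b * Aw n' (rf sk usk f) (usk k) (H ∘ sk) := by
  have ha : a < n := by omega
  have hfb := P.fb ha hf
  have hk := P.ne_k ha hf hab.ne
  have sk' := R.su k P.hk hk.1 hk.2
  have hk' := R.ult k P.hk hk.1 hk.2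
  have e0 : range n = insert a (insert b ((range n').image sk)) := by
    ext s
    simp only [mem_range, mem_insert, mem_image]
    constructor
    · intro h
      by_cases h1 : s = a
      · exact Or.inl h1
      · by_cases h2 : s = b
        · exact Or.inr (Or.inl h2)
        · exact Or.inr (Or.inr ⟨usk s, R.ult s h h1 h2, R.su s h h1 h2⟩)
    · rintro (h | h | ⟨t, ht, h⟩)
      · omega
      · omega
      · rw [← h]; exact R.lt t ht
  have n1 : a ∉ insert b ((range n').image sk) := by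
    simp only [mem_insert, mem_image, mem_range, not_or, not_exists, not_and]
    exact ⟨hab.ne, fun t ht => R.ne1 t ht⟩
  have n2 : b ∉ (range n').image sk := by
    simp only [mem_image, mem_range, not_exists, not_and]
    exact fun t ht => R.ne2 t ht
  have inj : ∀ t ∈ range n', ∀ t' ∈ range n', sk t = sk t' → t = t' := by
    intro t ht t' ht' h
    rw [mem_range] at ht ht'
    rw [← R.us t ht, h, R.us t' ht']
  unfold Aw
  rw [e0, prod_insert n1, prod_insert n2, prod_image inj, if_pos (by rw [hf]; exact hab), hf,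
    if_neg (by rw [hfb]; omega), one_mul]
  congr 1
  refine prod_congr rfl fun t ht => ?_
  rw [mem_range] at ht
  have h1 := R.srf P ha hf ht
  have h2 := R.rlt P ha hf ht
  have h3 : sk t < f (sk t) ↔ t < rf sk usk f t := by
    rw [← h1]
    exact R.mono _ _ ht h2
  by_cases h4 : t < rf sk usk f t
  · rw [if_pos (h3.2 h4), if_pos h4]
    unfold LemA.aw
    have h5 : (sk t < k ∧ k < f (sk t)) ↔ (t < usk k ∧ usk k < rf sk usk f t) := by
      rw [← sk', ← h1, R.us (usk k) hk']
      exact and_congr (R.mono _ _ ht hk') (R.mono _ _ hk' h2)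
    simp only [Function.comp_apply, h1]
    by_cases h6 : sk t < k ∧ k < f (sk t)
    · rw [if_pos h6, if_pos (h5.1 h6)]
    · rw [if_neg h6, if_neg (fun h => h6 (h5.2 h))]
  · rw [if_neg (fun h => h4 (h3.1 h)), if_neg h4]

theorem Rm.xi {x : ℂ} (R : Rm n n' a b sk usk) (P : Pat n f k) (hab : a < b) (hb : b < n)
    (hf : f a = b) :
    Xi x n f k H = (LemA.aw k H a b : ℂ) * Xi x n' (rf sk usk f) (usk k) (H ∘ sk) := by
  have hk := P.ne_k (by omega) hf hab.ne
  unfold Xi
  rw [R.aw P hab hb hf, Function.comp_apply, R.su k P.hk hk.1 hk.2]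
  push_cast
  ring

end rm

lemma Xi_congr {x : ℂ} {n : ℕ} {f : ℕ → ℕ} {k : ℕ} {H H' : ℕ → ℤ} (P : Pat n f k)
    (h : ∀ s, s < n → H s = H' s) : Xi x n f k H = Xi x n f k H' := by
  unfold Xi
  rw [h k P.hk]
  congr 2
  unfold Aw
  refine prod_congr rfl fun a ha => ?_
  rw [mem_range] at ha
  unfold aw
  rw [h a ha, h _ (P.lt a ha)]

lemma S_congr {x : ℂ} {n : ℕ} {f : ℕ → ℕ} {k : ℕ} {H H' : ℕ → ℤ} {c c' : ℕ → ℤ} (P : Pat n f k)
    (h : ∀ s, s < n → H s = H' s) (hc : ∀ j, j ≤ n → c j = c' j) :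
    S x n f k H c = S x n f k H' c' := by
  unfold S
  refine sum_congr rfl fun j hj => ?_
  rw [mem_range] at hj
  rw [hc j (by omega)]
  congr 1
  exact Xi_congr P fun s hs => by unfold kk; rw [h s hs]

/-- the coefficients after the removal of the arc `(i, i + 1)`; `q` is the charge of its gap -/
def cl (i : ℕ) (q : ℤ) (c : ℕ → ℤ) (j : ℕ) : ℤ :=
  if j < i then W q * c j else if j = i then W q * (c i + c (i + 2)) + W (q + 2) * c (i + 1)
    else W q * c (j + 2)

/-- the coefficients after the removal of the arc `(n - 1, 0)`; `q` is the charge of its gap -/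
def cc (n : ℕ) (q : ℤ) (c : ℕ → ℤ) (j : ℕ) : ℤ :=
  if j = 0 then W q * c 1 + W (q + 2) * c 0 else if j = n - 2 then W q * c (n - 1) + W (q + 2) * c n
    else W q * c (j + 1)

lemma sum_l1 (F : ℕ → ℂ) {n i : ℕ} (h : i + 1 < n) : ∑ j ∈ range (n + 1), F j =
    ∑ j ∈ range i, F j + F i + F (i + 1) + F (i + 2) + ∑ j ∈ range (n - 2 - i), F (i + 3 + j) := by
  have hn : n + 1 = (i + 3) + (n - 2 - i) := by omega
  rw [hn, sum_range_add, sum_range_succ, sum_range_succ, sum_range_succ]

lemma sum_l2 (F : ℕ → ℂ) {n i : ℕ} (h : i + 1 < n) : ∑ j ∈ range (n - 2 + 1), F j =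
    ∑ j ∈ range i, F j + F i + ∑ j ∈ range (n - 2 - i), F (i + 1 + j) := by
  have hn : n - 2 + 1 = (i + 1) + (n - 2 - i) := by omega
  rw [hn, sum_range_add, sum_range_succ]

lemma sum_c1 (F : ℕ → ℂ) {n : ℕ} (h : 3 ≤ n) : ∑ j ∈ range (n + 1), F j =
    F 0 + F 1 + ∑ j ∈ range (n - 3), F (2 + j) + F (n - 1) + F n := by
  have hn : n + 1 = (2 + (n - 3)) + 1 + 1 := by omega
  have e3 : 2 + (n - 3) = n - 1 := by omega
  have e4 : n - 1 + 1 = n := by omega
  rw [hn, sum_range_succ, sum_range_succ, sum_range_add, sum_range_succ, sum_range_one, e3, e4]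

lemma sum_c2 (F : ℕ → ℂ) {n : ℕ} (h : 3 ≤ n) : ∑ j ∈ range (n - 2 + 1), F j =
    F 0 + ∑ j ∈ range (n - 3), F (1 + j) + F (n - 2) := by
  have hn : n - 2 + 1 = (1 + (n - 3)) + 1 := by omega
  have e3 : 1 + (n - 3) = n - 2 := by omega
  rw [hn, sum_range_succ, sum_range_add, sum_range_one, e3]

/-- **rule (R)**, arc `(i, i + 1)` -/
theorem S_lin {x : ℂ} {n i : ℕ} {f : ℕ → ℕ} {k : ℕ} {H : ℕ → ℤ} {c : ℕ → ℤ} (P : Pat n f k)
    (hi : i + 1 < n) (hf : f i = i + 1) :
    S x n f k H c = S x (n - 2) (rf (skl i) (uskl i) f) (uskl i k) (H ∘ skl i)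
      (cl i (H (i + 1) - H i) c) := by
  set q := H (i + 1) - H i with hq
  have R := rm_lin hi
  have P' := R.pat P (by omega) hf (by omega)
  have hk := P.ne_k (by omega) hf (by omega)
  set X' := fun j => Xi x (n - 2) (rf (skl i) (uskl i) f) (uskl i k) (kk (H ∘ skl i) j) with hX'
  have key : ∀ j, j ≤ n → Xi x n f k (kk H j) =
      (if j = i + 1 then (W (q + 2) : ℂ) else (W q : ℂ)) * X' (if j ≤ i then j else if j = i + 1
        then i else j - 2) := by
    intro j hj
    rw [R.xi P (by omega) hi hf]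
    have hnk : ¬(i < k ∧ k < i + 1) := by omega
    unfold aw
    rw [if_neg hnk]
    have e1 : kk H j (i + 1) - kk H j i = if j = i + 1 then q + 2 else q := by
      unfold kk
      split_ifs <;> omega
    rw [e1]
    have e2 : ((W (if j = i + 1 then q + 2 else q) : ℤ) : ℂ) =
        if j = i + 1 then (W (q + 2) : ℂ) else (W q : ℂ) := by split_ifs <;> rfl
    rw [e2]
    congr 1
    refine Xi_congr P' fun s hs => ?_
    unfold kk skl
    simp only [Function.comp_apply]
    split_ifs <;> omega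
  unfold S
  rw [sum_l1 _ hi, sum_l2 _ hi]
  have s1 : ∑ j ∈ range i, (c j : ℂ) * Xi x n f k (kk H j) =
      ∑ j ∈ range i, (cl i q c j : ℂ) * X' j := by
    refine sum_congr rfl fun j hj => ?_
    rw [mem_range] at hj
    rw [key j (by omega), if_neg (by omega), if_pos (by omega)]
    unfold cl
    rw [if_pos hj]
    push_cast
    ring
  have s2 : ∑ j ∈ range (n - 2 - i), (c (i + 3 + j) : ℂ) * Xi x n f k (kk H (i + 3 + j)) =
      ∑ j ∈ range (n - 2 - i), (cl i q c (i + 1 + j) : ℂ) * X' (i + 1 + j) := by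
    refine sum_congr rfl fun j hj => ?_
    rw [mem_range] at hj
    rw [key _ (by omega), if_neg (by omega), if_neg (by omega), if_neg (by omega)]
    unfold cl
    rw [if_neg (by omega), if_neg (by omega)]
    have e3 : i + 3 + j - 2 = i + 1 + j := by omega
    have e4 : i + 1 + j + 2 = i + 3 + j := by omega
    rw [e3, e4]
    push_cast
    ring
  have s3 : (cl i q c i : ℂ) = (W q : ℂ) * (c i + c (i + 2)) + (W (q + 2) : ℂ) * c (i + 1) := by
    unfold cl
    rw [if_neg (by omega), if_pos rfl]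
    push_cast
    ring
  rw [s1, s2, key i (by omega), key (i + 1) (by omega), key (i + 2) (by omega)]
  rw [if_neg (by omega), if_pos (le_refl i), if_pos (rfl : i + 1 = i + 1), if_neg (by omega),
    if_pos (rfl : i + 1 = i + 1), if_neg (by omega), if_neg (by omega), if_neg (by omega)]
  have e5 : i + 2 - 2 = i := by omega
  rw [e5]
  change _ = ∑ j ∈ range i, (cl i q c j : ℂ) * X' j + (cl i q c i : ℂ) * X' i +
    ∑ j ∈ range (n - 2 - i), (cl i q c (i + 1 + j) : ℂ) * X' (i + 1 + j)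
  rw [s3]
  ring

/-- **rule (R)**, arc `(n - 1, 0)` -/
theorem S_cyc {x : ℂ} {n : ℕ} {f : ℕ → ℕ} {k : ℕ} {H : ℕ → ℤ} {c : ℕ → ℤ} (P : Pat n f k)
    (hn3 : 3 ≤ n) (hk0 : 0 < k) (hk1 : k < n - 1) (hf : f 0 = n - 1) :
    S x n f k H c = S x (n - 2) (rf (fun t => t + 1) (fun s => s - 1) f) (k - 1)
      (fun t => H (t + 1)) (cc n (-2 - (H (n - 1) - H 0)) c) := by
  set q := -2 - (H (n - 1) - H 0) with hq
  have R := rm_cyc hn3
  have P' := R.pat P (by omega) hf (by omega)
  set X' := fun j => Xi x (n - 2) (rf (fun t => t + 1) (fun s => s - 1) f) (k - 1)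
    (kk (fun t => H (t + 1)) j) with hX'
  have key : ∀ j, j ≤ n → Xi x n f k (kk H j) =
      (if j = 0 ∨ j = n then (W (q + 2) : ℂ) else (W q : ℂ)) *
        X' (if j = n then n - 2 else j - 1) := by
    intro j hj
    rw [R.xi P (by omega) (by omega) hf]
    unfold aw
    rw [if_pos ⟨hk0, hk1⟩]
    have e1 : -(kk H j (n - 1) - kk H j 0) = if j = 0 ∨ j = n then q + 2 else q := by
      unfold kk
      split_ifs <;> omega
    rw [e1]
    have e2 : ((W (if j = 0 ∨ j = n then q + 2 else q) : ℤ) : ℂ) =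
        if j = 0 ∨ j = n then (W (q + 2) : ℂ) else (W q : ℂ) := by split_ifs <;> rfl
    rw [e2]
    congr 1
    refine Xi_congr P' fun s hs => ?_
    unfold kk
    simp only [Function.comp_apply]
    split_ifs <;> omega
  unfold S
  rw [sum_c1 _ hn3, sum_c2 _ hn3]
  have s2 : ∑ j ∈ range (n - 3), (c (2 + j) : ℂ) * Xi x n f k (kk H (2 + j)) =
      ∑ j ∈ range (n - 3), (cc n q c (1 + j) : ℂ) * X' (1 + j) := by
    refine sum_congr rfl fun j hj => ?_
    rw [mem_range] at hj
    rw [key _ (by omega), if_neg (by omega), if_neg (by omega)]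
    unfold cc
    rw [if_neg (by omega), if_neg (by omega)]
    have e6 : 2 + j - 1 = 1 + j := by omega
    have e7 : 1 + j + 1 = 2 + j := by omega
    rw [e6, e7]
    push_cast
    ring
  have s3 : (cc n q c 0 : ℂ) = (W q : ℂ) * c 1 + (W (q + 2) : ℂ) * c 0 := by
    unfold cc
    rw [if_pos rfl]
    push_cast
    ring
  have s4 : (cc n q c (n - 2) : ℂ) = (W q : ℂ) * c (n - 1) + (W (q + 2) : ℂ) * c n := by
    unfold cc
    rw [if_neg (by omega), if_pos rfl]
    push_cast
    ring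
  rw [s2, key 0 (by omega), key 1 (by omega), key (n - 1) (by omega), key n le_rfl]
  rw [if_pos (Or.inl rfl), if_neg (by omega), if_neg (by omega), if_neg (by omega),
    if_neg (by omega), if_neg (by omega), if_pos (Or.inr rfl), if_pos rfl]
  have e10 : n - 1 - 1 = n - 2 := by omega
  rw [e10]
  change _ = (cc n q c 0 : ℂ) * X' 0 + ∑ j ∈ range (n - 3), (cc n q c (1 + j) : ℂ) * X' (1 + j) +
    (cc n q c (n - 2) : ℂ) * X' (n - 2)
  rw [s3, s4]
  ring

end Full.LemA
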